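import Pool.Agent.MCG51b.Pair

/-!
Closed invariant sets and common fixed points: one group, and two commuting groups.
-/

set_option autoImplicit false

open Set Filter Topology

namespace Pool.Agent.MCG51b

open Pool.Agent.MCG51

/-- The supremum of an orbit is fixed. -/
theorem sup_fixed {A : Subgroup (ℝ ≃o ℝ)} {y M : ℝ} (h : ∀ a ∈ A, a y ≤ M) :
    ∃ z, y ≤ z ∧ z ≤ M ∧ (∀ a ∈ A, a z = z) ∧ z ∈ closure {w | ∃ a ∈ A, a y = w} := by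
  set B : Set ℝ := {z | ∃ a ∈ A, a y = z} with hB
  have hne : B.Nonempty := ⟨y, 1, A.one_mem, rfl⟩
  have hbd : BddAbove B := ⟨M, by rintro z ⟨a, ha, rfl⟩; exact h a ha⟩
  have h3 : ∀ g ∈ A, g (sSup B) ≤ sSup B := by
    intro g hg
    have h4 : sSup B ≤ g⁻¹ (sSup B) := by
      refine csSup_le hne ?_
      rintro z ⟨a, ha, rfl⟩
      have h5 : (g * a) y ≤ sSup B := le_csSup hbd ⟨g * a, A.mul_mem hg ha, rfl⟩
      have h6 := (g⁻¹).monotone h5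
      have h7 : g⁻¹ ((g * a) y) = a y := by
        rw [← app_mul, inv_mul_cancel_left]
      rwa [h7] at h6
    have h8 := g.monotone h4
    have h9 : g (g⁻¹ (sSup B)) = sSup B := by simp
    rwa [h9] at h8
  refine ⟨sSup B, le_csSup hbd ⟨1, A.one_mem, rfl⟩, csSup_le hne (by rintro z ⟨a, ha, rfl⟩; exact h a ha), ?_,
    csSup_mem_closure hne hbd⟩
  intro a ha
  refine le_antisymm (h3 a ha) ?_
  have h4 := a.monotone (h3 a⁻¹ (A.inv_mem ha))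
  have h9 : a (a⁻¹ (sSup B)) = sSup B := by simp
  rwa [h9] at h4

/-- The infimum of an orbit is fixed. -/
theorem inf_fixed {A : Subgroup (ℝ ≃o ℝ)} {y M : ℝ} (h : ∀ a ∈ A, M ≤ a y) :
    ∃ z, z ≤ y ∧ M ≤ z ∧ (∀ a ∈ A, a z = z) ∧ z ∈ closure {w | ∃ a ∈ A, a y = w} := by
  set B : Set ℝ := {z | ∃ a ∈ A, a y = z} with hB
  have hne : B.Nonempty := ⟨y, 1, A.one_mem, rfl⟩
  have hbd : BddBelow B := ⟨M, by rintro z ⟨a, ha, rfl⟩; exact h a ha⟩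
  have h3 : ∀ g ∈ A, sInf B ≤ g (sInf B) := by
    intro g hg
    have h4 : g⁻¹ (sInf B) ≤ sInf B := by
      refine le_csInf hne ?_
      rintro z ⟨a, ha, rfl⟩
      have h5 : sInf B ≤ (g * a) y := csInf_le hbd ⟨g * a, A.mul_mem hg ha, rfl⟩
      have h6 := (g⁻¹).monotone h5
      have h7 : g⁻¹ ((g * a) y) = a y := by
        rw [← app_mul, inv_mul_cancel_left]
      rwa [h7] at h6
    have h8 := g.monotone h4
    have h9 : g (g⁻¹ (sInf B)) = sInf B := by simp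
    rwa [h9] at h8
  refine ⟨sInf B, csInf_le hbd ⟨1, A.one_mem, rfl⟩, le_csInf hne (by rintro z ⟨a, ha, rfl⟩; exact h a ha), ?_,
    csInf_mem_closure hne hbd⟩
  intro a ha
  refine le_antisymm ?_ (h3 a ha)
  have h4 := a.monotone (h3 a⁻¹ (A.inv_mem ha))
  have h9 : a (a⁻¹ (sInf B)) = sInf B := by simp
  rwa [h9] at h4

theorem closure_orbit {A : Subgroup (ℝ ≃o ℝ)} {S : Set ℝ} (hS : IsClosed S) (hSA : ∀ a ∈ A, ∀ x ∈ S, a x ∈ S)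
    {y z : ℝ} (hy : y ∈ S) (hz : z ∈ closure {w | ∃ a ∈ A, a y = w}) : z ∈ S := by
  have h1 : {w | ∃ a ∈ A, a y = w} ⊆ S := by
    rintro w ⟨a, ha, rfl⟩
    exact hSA a ha y hy
  exact closure_minimal h1 hS hz

theorem one_nonempty {A : Subgroup (ℝ ≃o ℝ)} {S : Set ℝ} (hS : IsClosed S) (hSA : ∀ a ∈ A, ∀ x ∈ S, a x ∈ S)
    (hne : S.Nonempty) {x0 : ℝ} (hx0 : ∀ a ∈ A, a x0 = x0) : ∃ x ∈ S, ∀ a ∈ A, a x = x := by
  obtain ⟨y, hy⟩ := hne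
  rcases le_total y x0 with h | h
  · obtain ⟨z, -, -, hz, hzc⟩ := sup_fixed (A := A) (y := y) (M := x0) (fun a ha => by
      have := a.monotone h
      rwa [hx0 a ha] at this)
    exact ⟨z, closure_orbit hS hSA hy hzc, hz⟩
  · obtain ⟨z, -, -, hz, hzc⟩ := inf_fixed (A := A) (y := y) (M := x0) (fun a ha => by
      have := a.monotone h
      rwa [hx0 a ha] at this)
    exact ⟨z, closure_orbit hS hSA hy hzc, hz⟩

theorem one_above {A : Subgroup (ℝ ≃o ℝ)} {S : Set ℝ} (hS : IsClosed S) (hSA : ∀ a ∈ A, ∀ x ∈ S, a x ∈ S)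
    (hne : ¬ BddAbove S) (hA : ¬ BddAbove {x : ℝ | ∀ a ∈ A, a x = x}) :
    ¬ BddAbove (S ∩ {x : ℝ | ∀ a ∈ A, a x = x}) := by
  rw [not_bddAbove_iff] at hne hA ⊢
  intro M
  obtain ⟨y, hy, hyM⟩ := hne M
  obtain ⟨x0, hx0, hx0y⟩ := hA y
  obtain ⟨z, hz1, -, hz, hzc⟩ := sup_fixed (A := A) (y := y) (M := x0) (fun a ha => by
    have := a.monotone hx0y.le
    rwa [hx0 a ha] at this)
  exact ⟨z, ⟨closure_orbit hS hSA hy hzc, hz⟩, hyM.trans_le hz1⟩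

theorem one_below {A : Subgroup (ℝ ≃o ℝ)} {S : Set ℝ} (hS : IsClosed S) (hSA : ∀ a ∈ A, ∀ x ∈ S, a x ∈ S)
    (hne : ¬ BddBelow S) (hA : ¬ BddBelow {x : ℝ | ∀ a ∈ A, a x = x}) :
    ¬ BddBelow (S ∩ {x : ℝ | ∀ a ∈ A, a x = x}) := by
  rw [not_bddBelow_iff] at hne hA ⊢
  intro M
  obtain ⟨y, hy, hyM⟩ := hne M
  obtain ⟨x0, hx0, hx0y⟩ := hA y
  obtain ⟨z, hz1, -, hz, hzc⟩ := inf_fixed (A := A) (y := y) (M := x0) (fun a ha => by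
    have := a.monotone hx0y.le
    rwa [hx0 a ha] at this)
  exact ⟨z, ⟨closure_orbit hS hSA hy hzc, hz⟩, hz1.trans_lt hyM⟩

/-- The points that commuting elements fix form an invariant set. -/
theorem fix_inv {A : Subgroup (ℝ ≃o ℝ)} {SB : Set (ℝ ≃o ℝ)} (hc : ∀ a ∈ A, ∀ b ∈ SB, a * b = b * a)
    {a : ℝ ≃o ℝ} (ha : a ∈ A) {x : ℝ} (hx : ∀ b ∈ SB, b x = x) : ∀ b ∈ SB, b (a x) = a x := by
  intro b hb
  rw [← app_mul, ← hc a ha b hb, app_mul, hx b hb]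

/-- The upper end. -/
theorem two_above {A : Subgroup (ℝ ≃o ℝ)} {SA SB : Set (ℝ ≃o ℝ)} (hfin : SA.Finite)
    (hcl : Subgroup.closure SA = A) (hc : ∀ a ∈ A, ∀ b ∈ SB, a * b = b * a)
    (hA : ∀ s ∈ SA, ¬ BddAbove {x : ℝ | s x = x}) (hB : ∀ s ∈ SB, ¬ BddAbove {x : ℝ | s x = x})
    (hbd : BddAbove {x : ℝ | ∀ a ∈ A, a x = x}) {S : Set ℝ} (hS : IsClosed S) (hne : ¬ BddAbove S)
    (hSA : ∀ a ∈ A, ∀ x ∈ S, a x ∈ S) : ¬ BddAbove (S ∩ {x : ℝ | ∀ b ∈ SB, b x = x}) := by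
  obtain ⟨M₁, hM₁⟩ := hbd
  set I : Set ℝ := {x | ∀ y, (∀ a ∈ A, a y = y) → y < x} with hI
  have hlarge : ∀ x, M₁ < x → x ∈ I := fun x hx y hy => (hM₁ hy).trans_lt hx
  have hIo : I.OrdConnected := ⟨fun x hx y hy z hz w hw => (hx w hw).trans_le hz.1⟩
  have hAI : ∀ g ∈ A, ∀ x ∈ I, g x ∈ I := by
    intro g hg x hx y hy
    have h1 := g.strictMono (hx y hy)
    rwa [hy g hg] at h1
  have hno : ∀ x ∈ I, ∃ a ∈ A, a x ≠ x := by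
    intro x hx
    by_contra h
    push Not at h
    exact lt_irrefl x (hx x h)
  have hfix : ∀ s : ℝ ≃o ℝ, ¬ BddAbove {x : ℝ | s x = x} → ∃ x ∈ I, s x = x := by
    intro s hs
    rw [not_bddAbove_iff] at hs
    obtain ⟨y, hy, hy'⟩ := hs M₁
    exact ⟨y, hlarge y hy', hy⟩
  rw [not_bddAbove_iff] at hne ⊢
  have hF : S ∩ I ∈ Fam A I := by
    refine ⟨?_, inter_subset_right, fun x hx hxc => ⟨?_, hx⟩, fun g hg x hx => ⟨hSA g hg x hx.1, hAI g hg x hx.2⟩⟩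
    · obtain ⟨y, hy, hy'⟩ := hne M₁
      exact ⟨y, hy, hlarge y hy'⟩
    · have h1 := closure_mono inter_subset_left hxc
      rwa [hS.closure_eq] at h1
  obtain ⟨x, hx, hxb⟩ := comm_fix hfin hcl hIo hAI (fun s hs => hfix s (hA s hs)) hno hF
  have hxB : ∀ b ∈ SB, b x = x := fun b hb => hxb b (fun a ha => hc a ha b hb) (hfix b (hB b hb))
  intro M
  obtain ⟨a, ha, hay⟩ := cofinal_grp hIo hno hx.2 (hlarge (max M (M₁ + 1)) (lt_of_lt_of_le (by linarith)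
    (le_max_right _ _)))
  exact ⟨a x, ⟨hSA a ha x hx.1, fix_inv hc ha hxB⟩, (le_max_left _ _).trans_lt hay⟩

/-- The lower end. -/
theorem two_below {A : Subgroup (ℝ ≃o ℝ)} {SA SB : Set (ℝ ≃o ℝ)} (hfin : SA.Finite)
    (hcl : Subgroup.closure SA = A) (hc : ∀ a ∈ A, ∀ b ∈ SB, a * b = b * a)
    (hA : ∀ s ∈ SA, ¬ BddBelow {x : ℝ | s x = x}) (hB : ∀ s ∈ SB, ¬ BddBelow {x : ℝ | s x = x})
    (hbd : BddBelow {x : ℝ | ∀ a ∈ A, a x = x}) {S : Set ℝ} (hS : IsClosed S) (hne : ¬ BddBelow S)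
    (hSA : ∀ a ∈ A, ∀ x ∈ S, a x ∈ S) : ¬ BddBelow (S ∩ {x : ℝ | ∀ b ∈ SB, b x = x}) := by
  obtain ⟨M₁, hM₁⟩ := hbd
  set I : Set ℝ := {x | ∀ y, (∀ a ∈ A, a y = y) → x < y} with hI
  have hlarge : ∀ x, x < M₁ → x ∈ I := fun x hx y hy => hx.trans_le (hM₁ hy)
  have hIo : I.OrdConnected := ⟨fun x hx y hy z hz w hw => hz.2.trans_lt (hy w hw)⟩
  have hAI : ∀ g ∈ A, ∀ x ∈ I, g x ∈ I := by
    intro g hg x hx y hy
    have h1 := g.strictMono (hx y hy)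
    rwa [hy g hg] at h1
  have hno : ∀ x ∈ I, ∃ a ∈ A, a x ≠ x := by
    intro x hx
    by_contra h
    push Not at h
    exact lt_irrefl x (hx x h)
  have hfix : ∀ s : ℝ ≃o ℝ, ¬ BddBelow {x : ℝ | s x = x} → ∃ x ∈ I, s x = x := by
    intro s hs
    rw [not_bddBelow_iff] at hs
    obtain ⟨y, hy, hy'⟩ := hs M₁
    exact ⟨y, hlarge y hy', hy⟩
  rw [not_bddBelow_iff] at hne ⊢
  have hF : S ∩ I ∈ Fam A I := by
    refine ⟨?_, inter_subset_right, fun x hx hxc => ⟨?_, hx⟩, fun g hg x hx => ⟨hSA g hg x hx.1, hAI g hg x hx.2⟩⟩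
    · obtain ⟨y, hy, hy'⟩ := hne M₁
      exact ⟨y, hy, hlarge y hy'⟩
    · have h1 := closure_mono inter_subset_left hxc
      rwa [hS.closure_eq] at h1
  obtain ⟨x, hx, hxb⟩ := comm_fix hfin hcl hIo hAI (fun s hs => hfix s (hA s hs)) hno hF
  have hxB : ∀ b ∈ SB, b x = x := fun b hb => hxb b (fun a ha => hc a ha b hb) (hfix b (hB b hb))
  intro M
  obtain ⟨a, ha, hay⟩ := cofinal_grp hIo hno (hlarge (min M (M₁ - 1)) (lt_of_le_of_lt (min_le_right _ _)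
    (by linarith))) hx.2
  have hxa : a⁻¹ x < min M (M₁ - 1) := by
    have h1 := (a⁻¹).strictMono hay
    have h2 : a⁻¹ (a (min M (M₁ - 1))) = min M (M₁ - 1) := by simp
    rwa [h2] at h1
  exact ⟨a⁻¹ x, ⟨hSA a⁻¹ (A.inv_mem ha) x hx.1, fix_inv hc (A.inv_mem ha) hxB⟩, hxa.trans_le (min_le_left _ _)⟩

/-! ### Homeomorphisms of the line -/

/-- The increasing homeomorphisms of a set as order isomorphisms. -/
theorem transport {SA : Set (ℝ ≃ₜ ℝ)} (h : ∀ s ∈ SA, StrictMono s) : ∃ SA' : Set (ℝ ≃o ℝ),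
    (SA.Finite → SA'.Finite) ∧ (∀ h ∈ SA', ∃ s ∈ SA, ∀ x, h x = s x) ∧ ∀ s ∈ SA, ∃ h ∈ SA', ∀ x, h x = s x := by
  have h' : ∀ s ∈ SA, ∃ h : ℝ ≃o ℝ, ∀ x, h x = s x := fun s hs => exists_oi (h s hs)
  choose! φ hφ using h'
  refine ⟨φ '' SA, fun hf => hf.image φ, ?_, fun s hs => ⟨φ s, ⟨s, hs, rfl⟩, hφ s hs⟩⟩
  rintro _ ⟨s, hs, rfl⟩
  exact ⟨s, hs, hφ s hs⟩

theorem transport_inv {SA : Set (ℝ ≃ₜ ℝ)} {SA' : Set (ℝ ≃o ℝ)} (h : ∀ h ∈ SA', ∃ s ∈ SA, ∀ x, h x = s x)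
    {S : Set ℝ} (hS : ∀ s ∈ SA, s '' S = S) : ∀ a ∈ Subgroup.closure SA', ∀ x ∈ S, a x ∈ S := by
  apply inv_closure
  intro k hk
  obtain ⟨s, hs, hks⟩ := h k hk
  refine ⟨fun x hx => ?_, fun x hx => ?_⟩
  · rw [hks x]
    have h1 : s x ∈ s '' S := ⟨x, hx, rfl⟩
    rwa [hS s hs] at h1
  · rw [← hS s hs] at hx
    obtain ⟨y, hy, rfl⟩ := hx
    have h1 : k⁻¹ (s y) = y := by
      rw [← hks y]
      simp
    rw [h1]
    exact hy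

theorem transport_fix {SA : Set (ℝ ≃ₜ ℝ)} {SA' : Set (ℝ ≃o ℝ)} (h1 : ∀ h ∈ SA', ∃ s ∈ SA, ∀ x, h x = s x)
    (h2 : ∀ s ∈ SA, ∃ h ∈ SA', ∀ x, h x = s x) :
    {x : ℝ | ∀ s ∈ SA, s x = x} = {x : ℝ | ∀ a ∈ Subgroup.closure SA', a x = x} := by
  ext x
  constructor
  · intro hx
    apply fix_closure
    intro k hk
    obtain ⟨s, hs, hks⟩ := h1 k hk
    rw [hks]
    exact hx s hs
  · intro hx s hs
    obtain ⟨k, hk, hks⟩ := h2 s hs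
    rw [← hks]
    exact hx k (Subgroup.subset_closure hk)

theorem transport_fix' {SA : Set (ℝ ≃ₜ ℝ)} {SA' : Set (ℝ ≃o ℝ)} (h1 : ∀ h ∈ SA', ∃ s ∈ SA, ∀ x, h x = s x)
    (h2 : ∀ s ∈ SA, ∃ h ∈ SA', ∀ x, h x = s x) :
    {x : ℝ | ∀ s ∈ SA, s x = x} = {x : ℝ | ∀ a ∈ SA', a x = x} := by
  ext x
  constructor
  · intro hx k hk
    obtain ⟨s, hs, hks⟩ := h1 k hk
    rw [hks]
    exact hx s hs
  · intro hx s hs
    obtain ⟨k, hk, hks⟩ := h2 s hs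
    rw [← hks]
    exact hx k hk

theorem transport_comm {SA SB : Set (ℝ ≃ₜ ℝ)} {SA' SB' : Set (ℝ ≃o ℝ)} (h1 : ∀ h ∈ SA', ∃ s ∈ SA, ∀ x, h x = s x)
    (h2 : ∀ h ∈ SB', ∃ s ∈ SB, ∀ x, h x = s x) (hc : ∀ a ∈ SA, ∀ b ∈ SB, a * b = b * a) :
    ∀ a ∈ Subgroup.closure SA', ∀ b ∈ SB', a * b = b * a := by
  intro a ha b hb
  refine comm_closure ?_ a ha
  intro k hk
  obtain ⟨s, hs, hks⟩ := h1 k hk
  obtain ⟨t, ht, hbt⟩ := h2 b hb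
  exact oi_comm (hc s hs t ht) hks hbt

theorem line_one {SA : Set (ℝ ≃ₜ ℝ)} (hA : ∀ s ∈ SA, StrictMono s) {S : Set ℝ} (hS : IsClosed S)
    (hSA : ∀ s ∈ SA, s '' S = S) :
    (S.Nonempty → {x : ℝ | ∀ s ∈ SA, s x = x}.Nonempty → (S ∩ {x : ℝ | ∀ s ∈ SA, s x = x}).Nonempty) ∧
    (¬ BddAbove S → ¬ BddAbove {x : ℝ | ∀ s ∈ SA, s x = x} → ¬ BddAbove (S ∩ {x : ℝ | ∀ s ∈ SA, s x = x})) ∧
    (¬ BddBelow S → ¬ BddBelow {x : ℝ | ∀ s ∈ SA, s x = x} → ¬ BddBelow (S ∩ {x : ℝ | ∀ s ∈ SA, s x = x})) := by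
  obtain ⟨SA', -, h1, h2⟩ := transport hA
  rw [transport_fix h1 h2]
  have h3 := transport_inv h1 hSA
  refine ⟨?_, one_above hS h3, one_below hS h3⟩
  rintro hne ⟨x0, hx0⟩
  exact one_nonempty hS h3 hne hx0

theorem line_two {SA SB : Set (ℝ ≃ₜ ℝ)} (hfin : SA.Finite) (hA : ∀ s ∈ SA, StrictMono s)
    (hB : ∀ s ∈ SB, StrictMono s) (hc : ∀ a ∈ SA, ∀ b ∈ SB, a * b = b * a) {S : Set ℝ} (hS : IsClosed S)
    (hSA : ∀ s ∈ SA, s '' S = S) :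
    ((∀ s ∈ SA, ¬ BddAbove {x : ℝ | s x = x}) → (∀ s ∈ SB, ¬ BddAbove {x : ℝ | s x = x}) →
      BddAbove {x : ℝ | ∀ s ∈ SA, s x = x} → ¬ BddAbove S → ¬ BddAbove (S ∩ {x : ℝ | ∀ s ∈ SB, s x = x})) ∧
    ((∀ s ∈ SA, ¬ BddBelow {x : ℝ | s x = x}) → (∀ s ∈ SB, ¬ BddBelow {x : ℝ | s x = x}) →
      BddBelow {x : ℝ | ∀ s ∈ SA, s x = x} → ¬ BddBelow S → ¬ BddBelow (S ∩ {x : ℝ | ∀ s ∈ SB, s x = x})) := by
  obtain ⟨SA', hf, h1, h2⟩ := transport hA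
  obtain ⟨SB', -, h3, h4⟩ := transport hB
  rw [transport_fix h1 h2, transport_fix' h3 h4]
  have h5 := transport_inv h1 hSA
  have h6 := transport_comm h1 h3 hc
  have e : ∀ {k : ℝ ≃o ℝ} {s : ℝ ≃ₜ ℝ}, (∀ x, k x = s x) → {x : ℝ | k x = x} = {x : ℝ | s x = x} := by
    intro k s hks
    ext x
    rw [mem_setOf_eq, mem_setOf_eq, hks]
  constructor
  · intro h7 h8 hbd hne
    refine two_above (hf hfin) rfl h6 ?_ ?_ hbd hS hne h5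
    · intro k hk
      obtain ⟨s, hs, hks⟩ := h1 k hk
      rw [e hks]
      exact h7 s hs
    · intro k hk
      obtain ⟨s, hs, hks⟩ := h3 k hk
      rw [e hks]
      exact h8 s hs
  · intro h7 h8 hbd hne
    refine two_below (hf hfin) rfl h6 ?_ ?_ hbd hS hne h5
    · intro k hk
      obtain ⟨s, hs, hks⟩ := h1 k hk
      rw [e hks]
      exact h7 s hs
    · intro k hk
      obtain ⟨s, hs, hks⟩ := h3 k hk
      rw [e hks]
      exact h8 s hs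

/-! ### Homeomorphisms of the circle -/

theorem exists_lift_at {g : S1 ≃ₜ S1} (hg : g ∈ csgn.ker) {x : ℝ} (hx : g (x : S1) = x) :
    ∃ h : ℝ ≃o ℝ, (∀ z : ℝ, ((h z : ℝ) : S1) = g (z : S1)) ∧ h x = x := by
  obtain ⟨h, hh⟩ := exists_mono_lift hg
  obtain ⟨n, hn⟩ := (coe_eq_iff (h x) x).mp ((hh x).trans hx)
  refine ⟨(OrderIso.addRight (-(n : ℝ))) * h, ?_, ?_⟩
  · intro z
    rw [← hh z]
    change ((h z + -(n : ℝ) : ℝ) : S1) = ((h z : ℝ) : S1)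
    rw [coe_eq_iff]
    refine ⟨-n, ?_⟩
    push_cast
    ring
  · change h x + -(n : ℝ) = x
    rw [hn]
    ring

theorem circ_one {SA : Set (S1 ≃ₜ S1)} (hA : ∀ s ∈ SA, s ∈ csgn.ker) {S : Set S1} (hS : IsClosed S)
    (hSA : ∀ s ∈ SA, s '' S = S) (hne : S.Nonempty) (hfix : {x : S1 | ∀ s ∈ SA, s x = x}.Nonempty) :
    (S ∩ {x : S1 | ∀ s ∈ SA, s x = x}).Nonempty := by
  obtain ⟨c, hc⟩ := hfix
  obtain ⟨x0, rfl⟩ := QuotientAddGroup.mk_surjective c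
  have hl : ∀ s ∈ SA, ∃ h : ℝ ≃o ℝ, (∀ z : ℝ, ((h z : ℝ) : S1) = s (z : S1)) ∧ h x0 = x0 := fun s hs =>
    exists_lift_at (hA s hs) (hc s hs)
  choose! φ hφ using hl
  have hinv : ∀ a ∈ Subgroup.closure (φ '' SA), ∀ x ∈ ((↑) : ℝ → S1) ⁻¹' S, a x ∈ ((↑) : ℝ → S1) ⁻¹' S := by
    apply inv_closure
    rintro _ ⟨s, hs, rfl⟩
    refine ⟨fun x hx => ?_, fun x hx => ?_⟩
    · change ((φ s x : ℝ) : S1) ∈ S
      rw [(hφ s hs).1, ← hSA s hs]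
      exact ⟨(x : S1), hx, rfl⟩
    · have hx' : (x : S1) ∈ s '' S := by
        rw [hSA s hs]
        exact hx
      obtain ⟨y, hy, hyx⟩ := hx'
      change (((φ s)⁻¹ x : ℝ) : S1) ∈ S
      have h2 : s (((φ s)⁻¹ x : ℝ) : S1) = (x : S1) := by
        rw [← (hφ s hs).1]
        congr 1
        simp
      have h3 : (((φ s)⁻¹ x : ℝ) : S1) = y := s.injective (h2.trans hyx.symm)
      rw [h3]
      exact hy
  obtain ⟨y, hy⟩ := hne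
  obtain ⟨y0, rfl⟩ := QuotientAddGroup.mk_surjective y
  obtain ⟨x, hxS, hx⟩ := one_nonempty (hS.preimage coe_covering.continuous) hinv ⟨y0, hy⟩
    (x0 := x0) (fix_closure (by
      rintro _ ⟨s, hs, rfl⟩
      exact (hφ s hs).2))
  refine ⟨(x : S1), hxS, fun s hs => ?_⟩
  rw [← (hφ s hs).1, hx _ (Subgroup.subset_closure ⟨s, hs, rfl⟩)]

theorem circ_two {SA SB : Set (S1 ≃ₜ S1)} (hc : ∀ a ∈ SA, ∀ b ∈ SB, a * b = b * a)
    (hA : ∀ s ∈ SA, s ∈ csgn.ker ∧ ∃ x, s x = x) (hB : ∀ s ∈ SB, s ∈ csgn.ker ∧ ∃ x, s x = x)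
    (hno : ¬ {x : S1 | ∀ s ∈ SA, s x = x}.Nonempty) {S : Set S1} (hS : IsClosed S) (hne : S.Nonempty)
    (hSA : ∀ s ∈ SA, s '' S = S) : (S ∩ {x : S1 | ∀ s ∈ SB, s x = x}).Nonempty := by
  have : Fact (0 < (1 : ℝ)) := ⟨one_pos⟩
  obtain ⟨u, hu⟩ := isCompact_univ.elim_finite_subfamily_closed
    (fun s : SA => {x : S1 | s.1 x = x}) (fun s => isClosed_eq s.1.continuous continuous_id) (by
      rw [univ_inter, eq_empty_iff_forall_notMem]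
      intro x hx
      refine hno ⟨x, fun s hs => ?_⟩
      exact mem_iInter.mp hx ⟨s, hs⟩)
  set SA₀ : Set (S1 ≃ₜ S1) := Subtype.val '' (u : Set SA) with hSA0
  have hsub : SA₀ ⊆ SA := by
    rintro _ ⟨s, -, rfl⟩
    exact s.2
  have hfin : SA₀.Finite := u.finite_toSet.image _
  rcases circ_alt (SA := SA₀) (SB := SB) hfin (fun a ha => hc a (hsub ha)) (fun a ha => hA a (hsub ha)) hB with h | h
  · exfalso
    obtain ⟨x, hx⟩ := h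
    have h1 : x ∈ (univ : Set S1) ∩ ⋂ i ∈ u, {x : S1 | i.1 x = x} := by
      refine ⟨mem_univ x, ?_⟩
      rw [mem_iInter₂]
      intro i hi
      exact hx i.1 ⟨i, hi, rfl⟩
    rw [hu] at h1
    exact h1
  · obtain ⟨x, hx, hx'⟩ := h S hS hne (fun a ha => hSA a (hsub ha))
    exact ⟨x, hx, hx'⟩

end Pool.Agent.MCG51b
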