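import Pool.Agent.MCG51b.Holder
import Pool.Agent.MCG51b.Ends
import Pool.Agent.MCG51.Strong

/-!
Commutators of homeomorphisms that commute with a set of homeomorphisms without common fixed points.
-/

set_option autoImplicit false

open Set Filter Topology

namespace Pool.Agent.MCG51b

open Pool.Agent.MCG51

theorem inv_comm {G : Type*} [Group G] {A : Subgroup G} {c : G} (hc : ∀ a ∈ A, a * c = c * a) :
    ∀ a ∈ A, a * c⁻¹ = c⁻¹ * a := by
  intro a ha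
  exact ((show Commute a c from hc a ha).inv_right).eq

theorem fix_app {A : Subgroup (ℝ ≃o ℝ)} {c : ℝ ≃o ℝ} (hc : ∀ a ∈ A, a * c = c * a) {y : ℝ}
    (hy : ∀ a ∈ A, a y = y) : ∀ a ∈ A, a (c y) = c y := by
  intro a ha
  rw [← app_mul, hc a ha, app_mul, hy a ha]

theorem comm_above {A : Subgroup (ℝ ≃o ℝ)} {SA : Set (ℝ ≃o ℝ)} (hfin : SA.Finite)
    (hcl : Subgroup.closure SA = A) (hA : ∀ s ∈ SA, ¬ BddAbove {x : ℝ | s x = x})
    (hbd : BddAbove {x : ℝ | ∀ a ∈ A, a x = x}) {c d : ℝ ≃o ℝ} (hc : ∀ a ∈ A, a * c = c * a)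
    (hd : ∀ a ∈ A, a * d = d * a) : ¬ BddAbove {x : ℝ | (c * d * c⁻¹ * d⁻¹) x = x} := by
  obtain ⟨M₁, hM₁⟩ := hbd
  set I : Set ℝ := {x | ∀ y, (∀ a ∈ A, a y = y) → y < x} with hI
  have hlarge : ∀ x, M₁ < x → x ∈ I := fun x hx y hy => (hM₁ hy).trans_lt hx
  have hIo : I.OrdConnected := ⟨fun x hx y hy z hz w hw => (hx w hw).trans_le hz.1⟩
  have hAI : ∀ g ∈ A, ∀ x ∈ I, g x ∈ I := by
    intro g hg x hx y hy
    have h1 := g.strictMono (hx y hy)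
    rwa [hy g hg] at h1
  have hcI : ∀ c : ℝ ≃o ℝ, (∀ a ∈ A, a * c = c * a) → ∀ x ∈ I, c x ∈ I := by
    intro c hc x hx y hy
    have h1 := c.strictMono (hx (c⁻¹ y) (fix_app (inv_comm hc) hy))
    rwa [app_inv] at h1
  have hno : ∀ x ∈ I, ∃ a ∈ A, a x ≠ x := by
    intro x hx
    by_contra h
    push Not at h
    exact lt_irrefl x (hx x h)
  have hfix : ∀ s ∈ SA, ∃ x ∈ I, s x = x := by
    intro s hs
    have h1 := hA s hs
    rw [not_bddAbove_iff] at h1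
    obtain ⟨y, hy, hy'⟩ := h1 M₁
    exact ⟨y, hlarge y hy', hy⟩
  obtain ⟨y, hy, hyc⟩ := comm_fixed hfin hcl hIo ⟨M₁ + 1, hlarge _ (by linarith)⟩ hAI hfix hno hc hd
    (fun x hx => ⟨hcI c hc x hx, hcI c⁻¹ (inv_comm hc) x hx⟩)
    (fun x hx => ⟨hcI d hd x hx, hcI d⁻¹ (inv_comm hd) x hx⟩)
  have hcc : ∀ a ∈ A, a * (c * d * c⁻¹ * d⁻¹) = (c * d * c⁻¹ * d⁻¹) * a := by
    intro a ha
    have h1 : Commute a c := hc a ha
    have h2 : Commute a d := hd a ha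
    exact (((h1.mul_right h2).mul_right h1.inv_right).mul_right h2.inv_right).eq
  rw [not_bddAbove_iff]
  intro M
  obtain ⟨a, ha, hay⟩ := cofinal_grp hIo hno hy (hlarge (max M (M₁ + 1)) (lt_of_lt_of_le (by linarith)
    (le_max_right _ _)))
  refine ⟨a y, ?_, (le_max_left _ _).trans_lt hay⟩
  change (c * d * c⁻¹ * d⁻¹) (a y) = a y
  rw [← app_mul, ← hcc a ha, app_mul, hyc]

theorem comm_below {A : Subgroup (ℝ ≃o ℝ)} {SA : Set (ℝ ≃o ℝ)} (hfin : SA.Finite)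
    (hcl : Subgroup.closure SA = A) (hA : ∀ s ∈ SA, ¬ BddBelow {x : ℝ | s x = x})
    (hbd : BddBelow {x : ℝ | ∀ a ∈ A, a x = x}) {c d : ℝ ≃o ℝ} (hc : ∀ a ∈ A, a * c = c * a)
    (hd : ∀ a ∈ A, a * d = d * a) : ¬ BddBelow {x : ℝ | (c * d * c⁻¹ * d⁻¹) x = x} := by
  obtain ⟨M₁, hM₁⟩ := hbd
  set I : Set ℝ := {x | ∀ y, (∀ a ∈ A, a y = y) → x < y} with hI
  have hlarge : ∀ x, x < M₁ → x ∈ I := fun x hx y hy => hx.trans_le (hM₁ hy)
  have hIo : I.OrdConnected := ⟨fun x hx y hy z hz w hw => hz.2.trans_lt (hy w hw)⟩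
  have hAI : ∀ g ∈ A, ∀ x ∈ I, g x ∈ I := by
    intro g hg x hx y hy
    have h1 := g.strictMono (hx y hy)
    rwa [hy g hg] at h1
  have hcI : ∀ c : ℝ ≃o ℝ, (∀ a ∈ A, a * c = c * a) → ∀ x ∈ I, c x ∈ I := by
    intro c hc x hx y hy
    have h1 := c.strictMono (hx (c⁻¹ y) (fix_app (inv_comm hc) hy))
    rwa [app_inv] at h1
  have hno : ∀ x ∈ I, ∃ a ∈ A, a x ≠ x := by
    intro x hx
    by_contra h
    push Not at h
    exact lt_irrefl x (hx x h)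
  have hfix : ∀ s ∈ SA, ∃ x ∈ I, s x = x := by
    intro s hs
    have h1 := hA s hs
    rw [not_bddBelow_iff] at h1
    obtain ⟨y, hy, hy'⟩ := h1 M₁
    exact ⟨y, hlarge y hy', hy⟩
  obtain ⟨y, hy, hyc⟩ := comm_fixed hfin hcl hIo ⟨M₁ - 1, hlarge _ (by linarith)⟩ hAI hfix hno hc hd
    (fun x hx => ⟨hcI c hc x hx, hcI c⁻¹ (inv_comm hc) x hx⟩)
    (fun x hx => ⟨hcI d hd x hx, hcI d⁻¹ (inv_comm hd) x hx⟩)
  have hcc : ∀ a ∈ A, a * (c * d * c⁻¹ * d⁻¹) = (c * d * c⁻¹ * d⁻¹) * a := by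
    intro a ha
    have h1 : Commute a c := hc a ha
    have h2 : Commute a d := hd a ha
    exact (((h1.mul_right h2).mul_right h1.inv_right).mul_right h2.inv_right).eq
  rw [not_bddBelow_iff]
  intro M
  obtain ⟨a, ha, hay⟩ := cofinal_grp hIo hno (hlarge (min M (M₁ - 1)) (lt_of_le_of_lt (min_le_right _ _)
    (by linarith))) hy
  have hya : a⁻¹ y < min M (M₁ - 1) := by
    have h1 := (a⁻¹).strictMono hay
    rwa [inv_app] at h1
  refine ⟨a⁻¹ y, ?_, hya.trans_le (min_le_left _ _)⟩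
  change (c * d * c⁻¹ * d⁻¹) (a⁻¹ y) = a⁻¹ y
  rw [← app_mul, ← hcc a⁻¹ (A.inv_mem ha), app_mul, hyc]

/-- The version for homeomorphisms that lift to the line. -/
theorem pair_comm {X : Type*} [TopologicalSpace X] {p : ℝ → X} {SA : Set (X ≃ₜ X)} (hfin : SA.Finite)
    (hA : ∀ s ∈ SA, ∃ h : ℝ ≃o ℝ, (∀ x, p (h x) = s (p x)) ∧ ∃ x, h x = x) {c d : X ≃ₜ X}
    (hc : ∃ h : ℝ ≃o ℝ, ∀ x, p (h x) = c (p x)) (hd : ∃ h : ℝ ≃o ℝ, ∀ x, p (h x) = d (p x))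
    (hcc : ∀ a ∈ SA, ∀ h k : ℝ ≃o ℝ, (∀ x, p (h x) = a (p x)) → (∀ x, p (k x) = c (p x)) → h * k = k * h)
    (hdd : ∀ a ∈ SA, ∀ h k : ℝ ≃o ℝ, (∀ x, p (h x) = a (p x)) → (∀ x, p (k x) = d (p x)) → h * k = k * h)
    (hno : ¬ ∃ x : X, ∀ a ∈ SA, a x = x) : ∃ y, (c * d * c⁻¹ * d⁻¹) y = y := by
  choose! φ hφ using hA
  obtain ⟨k, hk⟩ := hc
  obtain ⟨l, hl⟩ := hd
  set A := Subgroup.closure (φ '' SA) with hAdef
  have hno' : ∀ x ∈ (univ : Set ℝ), ∃ a ∈ A, a x ≠ x := by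
    by_contra h
    push Not at h
    obtain ⟨x, -, hx⟩ := h
    apply hno
    refine ⟨p x, fun a ha => ?_⟩
    rw [← (hφ a ha).1, hx _ (Subgroup.subset_closure ⟨a, ha, rfl⟩)]
  obtain ⟨y, -, hy⟩ := comm_fixed (hfin.image φ) hAdef.symm ordConnected_univ univ_nonempty
    (fun _ _ _ _ => mem_univ _)
    (by
      rintro _ ⟨s, hs, rfl⟩
      obtain ⟨y, hy⟩ := (hφ s hs).2
      exact ⟨y, mem_univ y, hy⟩) hno' (c := k) (d := l)
    (comm_closure (by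
      rintro _ ⟨a, ha, rfl⟩
      exact hcc a ha _ _ (hφ a ha).1 hk))
    (comm_closure (by
      rintro _ ⟨a, ha, rfl⟩
      exact hdd a ha _ _ (hφ a ha).1 hl))
    (fun _ _ => ⟨mem_univ _, mem_univ _⟩) (fun _ _ => ⟨mem_univ _, mem_univ _⟩)
  have hinv : ∀ (k : ℝ ≃o ℝ) (c : X ≃ₜ X), (∀ x, p (k x) = c (p x)) → ∀ x, p (k⁻¹ x) = c⁻¹ (p x) := by
    intro k c hk x
    apply c.injective
    rw [← hk, app_inv]
    exact (c.apply_symm_apply (p x)).symm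
  refine ⟨p y, ?_⟩
  have h1 : p ((k * l * k⁻¹ * l⁻¹) y) = (c * d * c⁻¹ * d⁻¹) (p y) := by
    change p (k (l (k⁻¹ (l⁻¹ y)))) = c (d (c⁻¹ (d⁻¹ (p y))))
    rw [hk, hl, hinv k c hk, hinv l d hl]
  rw [← h1, hy]

theorem line_comm {SA : Set (ℝ ≃ₜ ℝ)} (hfin : SA.Finite) (hA : ∀ s ∈ SA, StrictMono s) {c d : ℝ ≃ₜ ℝ}
    (hc : StrictMono c) (hd : StrictMono d) (hcc : ∀ a ∈ SA, a * c = c * a) (hdd : ∀ a ∈ SA, a * d = d * a) :
    ((∀ s ∈ SA, ∃ x, s x = x) → (¬ ∃ x : ℝ, ∀ a ∈ SA, a x = x) → ∃ y, (c * d * c⁻¹ * d⁻¹) y = y) ∧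
    ((∀ s ∈ SA, ¬ BddAbove {x : ℝ | s x = x}) → BddAbove {x : ℝ | ∀ a ∈ SA, a x = x} →
      ¬ BddAbove {x : ℝ | (c * d * c⁻¹ * d⁻¹) x = x}) ∧
    ((∀ s ∈ SA, ¬ BddBelow {x : ℝ | s x = x}) → BddBelow {x : ℝ | ∀ a ∈ SA, a x = x} →
      ¬ BddBelow {x : ℝ | (c * d * c⁻¹ * d⁻¹) x = x}) := by
  refine ⟨fun hfix hno => ?_, ?_⟩
  · refine pair_comm (p := id) hfin ?_ (exists_oi hc) (exists_oi hd) ?_ ?_ hno
    · intro s hs
      obtain ⟨h, hh⟩ := exists_oi (hA s hs)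
      obtain ⟨x, hx⟩ := hfix s hs
      exact ⟨h, hh, x, (hh x).trans hx⟩
    · intro a ha h k hh hk
      exact oi_comm (hcc a ha) hh hk
    · intro a ha h k hh hk
      exact oi_comm (hdd a ha) hh hk
  · obtain ⟨SA', hf, h1, h2⟩ := transport hA
    obtain ⟨k, hk⟩ := exists_oi hc
    obtain ⟨l, hl⟩ := exists_oi hd
    have hinv : ∀ (k : ℝ ≃o ℝ) (c : ℝ ≃ₜ ℝ), (∀ x, k x = c x) → ∀ x, k⁻¹ x = c⁻¹ x := by
      intro k c hk x
      apply c.injective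
      rw [← hk, app_inv]
      exact (c.apply_symm_apply x).symm
    have e : {x : ℝ | (c * d * c⁻¹ * d⁻¹) x = x} = {x : ℝ | (k * l * k⁻¹ * l⁻¹) x = x} := by
      ext x
      have h3 : (k * l * k⁻¹ * l⁻¹) x = (c * d * c⁻¹ * d⁻¹) x := by
        change k (l (k⁻¹ (l⁻¹ x))) = c (d (c⁻¹ (d⁻¹ x)))
        rw [hk, hl, hinv k c hk, hinv l d hl]
      change (c * d * c⁻¹ * d⁻¹) x = x ↔ (k * l * k⁻¹ * l⁻¹) x = x
      rw [h3]
    have hkc : ∀ a ∈ Subgroup.closure SA', a * k = k * a := by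
      apply comm_closure
      intro s hs
      obtain ⟨t, ht, hst⟩ := h1 s hs
      exact oi_comm (hcc t ht) hst hk
    have hlc : ∀ a ∈ Subgroup.closure SA', a * l = l * a := by
      apply comm_closure
      intro s hs
      obtain ⟨t, ht, hst⟩ := h1 s hs
      exact oi_comm (hdd t ht) hst hl
    have e2 : ∀ {k : ℝ ≃o ℝ} {s : ℝ ≃ₜ ℝ}, (∀ x, k x = s x) → {x : ℝ | k x = x} = {x : ℝ | s x = x} := by
      intro k s hks
      ext x
      change k x = x ↔ s x = x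
      rw [hks]
    rw [transport_fix h1 h2, e]
    constructor
    · intro h3 h4
      refine comm_above (hf hfin) rfl ?_ h4 hkc hlc
      intro a ha
      obtain ⟨s, hs, hks⟩ := h1 a ha
      rw [e2 hks]
      exact h3 s hs
    · intro h3 h4
      refine comm_below (hf hfin) rfl ?_ h4 hkc hlc
      intro a ha
      obtain ⟨s, hs, hks⟩ := h1 a ha
      rw [e2 hks]
      exact h3 s hs

theorem circ_comm {SA : Set (S1 ≃ₜ S1)} (hA : ∀ s ∈ SA, s ∈ csgn.ker ∧ ∃ x, s x = x) {c d : S1 ≃ₜ S1}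
    (hc : c ∈ csgn.ker) (hd : d ∈ csgn.ker) (hcc : ∀ a ∈ SA, a * c = c * a) (hdd : ∀ a ∈ SA, a * d = d * a)
    (hno : ¬ {x : S1 | ∀ s ∈ SA, s x = x}.Nonempty) : {x | (c * d * c⁻¹ * d⁻¹) x = x}.Nonempty := by
  have : Fact (0 < (1 : ℝ)) := ⟨one_pos⟩
  obtain ⟨u, hu⟩ := isCompact_univ.elim_finite_subfamily_closed
    (fun s : SA => {x : S1 | s.1 x = x}) (fun s => isClosed_eq s.1.continuous continuous_id) (by
      rw [univ_inter, eq_empty_iff_forall_notMem]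
      intro x hx
      refine hno ⟨x, fun s hs => ?_⟩
      exact mem_iInter.mp hx ⟨s, hs⟩)
  set SA₀ : Set (S1 ≃ₜ S1) := Subtype.val '' (u : Set SA) with hSA0
  have hsub : SA₀ ⊆ SA := by
    rintro _ ⟨s, -, rfl⟩
    exact s.2
  have hfin : SA₀.Finite := u.finite_toSet.image _
  have hl : ∀ (a b : S1 ≃ₜ S1), a * b = b * a → ∀ h k : ℝ ≃o ℝ, (∀ x : ℝ, ((h x : ℝ) : S1) = a (x : S1)) →
      (∀ x : ℝ, ((k x : ℝ) : S1) = b (x : S1)) → h * k = k * h := by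
    intro a b hab h k hh hk
    have h1 : IsLift a h.toHomeomorph := fun x => hh x
    have h2 : IsLift b k.toHomeomorph := fun x => hk x
    apply RelIso.ext
    intro x
    exact h1.comm h2 h.strictMono k.strictMono hab x
  refine pair_comm (p := ((↑) : ℝ → S1)) hfin ?_ (exists_mono_lift hc) (exists_mono_lift hd) ?_ ?_ ?_
  · intro s hs
    exact exists_fix_lift (hA s (hsub hs)).1 (hA s (hsub hs)).2
  · intro a ha
    exact hl a c (hcc a (hsub ha))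
  · intro a ha
    exact hl a d (hdd a (hsub ha))
  · rintro ⟨x, hx⟩
    have h1 : x ∈ (univ : Set S1) ∩ ⋂ i ∈ u, {x : S1 | i.1 x = x} := by
      refine ⟨mem_univ x, ?_⟩
      rw [mem_iInter₂]
      intro i hi
      exact hx i.1 ⟨i, hi, rfl⟩
    rw [hu] at h1
    exact h1

/-- A homeomorphism of the circle that lifts to an increasing one preserves the orientation. -/
theorem mem_csgn {f : S1 ≃ₜ S1} (hf : ∃ h : ℝ ≃o ℝ, ∀ x : ℝ, ((h x : ℝ) : S1) = f (x : S1)) : f ∈ csgn.ker := by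
  obtain ⟨h, hh⟩ := hf
  have h1 : IsLift f h.toHomeomorph := fun x => hh x
  have h2 : sgn (exists_lift f).choose = sgn h.toHomeomorph := sgn_eq_of_lift (exists_lift f).choose_spec h1
  have h3 : h.toHomeomorph ∈ sgn.ker := mem_ker_sgn.mpr h.strictMono
  rw [MonoidHom.mem_ker] at h3 ⊢
  exact h2.trans h3

/-- A periodic point of an orientation preserving homeomorphism of the circle with a fixed point is fixed. -/
theorem circ_fixed_of_pow {f : S1 ≃ₜ S1} (hf : f ∈ csgn.ker) (hfix : ∃ x, f x = x) (k : ℕ) (hk : 1 ≤ k) (x : S1)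
    (hx : (f ^ k) x = x) : f x = x := by
  obtain ⟨y, hy⟩ := hfix
  obtain ⟨x0, rfl⟩ := QuotientAddGroup.mk_surjective y
  obtain ⟨h, hh, h0⟩ := exists_lift_at hf hy
  obtain ⟨y, rfl⟩ := QuotientAddGroup.mk_surjective x
  set g : ℝ ≃ₜ ℝ := h.toHomeomorph with hg
  have hgl : IsLift f g := fun x => hh x
  have hgm : StrictMono g := h.strictMono
  have hg0 : g x0 = x0 := h0
  -- a representative in [x0, x0 + 1)
  set z : ℝ := x0 + Int.fract (y - x0) with hz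
  have hzy : (z : S1) = (y : S1) := by
    rw [coe_eq_iff]
    refine ⟨-⌊y - x0⌋, ?_⟩
    rw [hz, Int.fract]
    push_cast
    ring
  have hz0 : x0 ≤ z := by
    have := Int.fract_nonneg (y - x0)
    linarith
  have hz1 : z < x0 + 1 := by
    have := Int.fract_lt_one (y - x0)
    linarith
  have hsucc : ∀ j : ℕ, (g ^ (j + 1)) z = g ((g ^ j) z) := by
    intro j
    rw [pow_succ']
    rfl
  have hb : ∀ j : ℕ, x0 ≤ (g ^ j) z ∧ (g ^ j) z < x0 + 1 := by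
    intro j
    induction j with
    | zero => exact ⟨hz0, hz1⟩
    | succ j ih =>
      rw [hsucc]
      constructor
      · have := hgm.monotone ih.1
        rwa [hg0] at this
      · have := hgm ih.2
        rwa [hgl.add_one hgm, hg0] at this
  have hl : ∀ j : ℕ, (((g ^ j) z : ℝ) : S1) = (f ^ j) (z : S1) := by
    intro j
    induction j with
    | zero => rfl
    | succ j ih =>
      rw [hsucc, hgl, ih, pow_succ']
      rfl
  have hx' : (f ^ k) (z : S1) = (z : S1) := by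
    rw [hzy]
    exact hx
  rw [← hl k] at hx'
  obtain ⟨n, hn⟩ := (coe_eq_iff _ _).mp hx'
  obtain ⟨h3, h4⟩ := hb k
  have h5 : (n : ℝ) < 1 := by linarith
  have h6 : (-1 : ℝ) < n := by linarith
  have h7 : n < (1 : ℤ) := by exact_mod_cast h5
  have h8 : (-1 : ℤ) < n := by exact_mod_cast h6
  have h9 : n = 0 := by omega
  rw [h9, Int.cast_zero, add_zero] at hn
  have h10 : g z = z := (fixed_of_pow hgm k hk z).mp hn
  change f (y : S1) = (y : S1)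
  rw [← hzy, ← hgl, h10]

end Pool.Agent.MCG51b
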