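import Pool.Agent.MCG51.Dich

/-!
Groups of increasing homeomorphisms of an interval that are generated by finitely many elements with fixed points, and
the elements that commute with them.
-/

set_option autoImplicit false

open Set Filter Topology

namespace Pool.Agent.MCG51b

open Pool.Agent.MCG51

/-- Without a global fixed point the orbits are unbounded in the interval. -/
theorem cofinal_grp {A : Subgroup (ℝ ≃o ℝ)} {I : Set ℝ} (hI : I.OrdConnected)
    (hno : ∀ x ∈ I, ∃ a ∈ A, a x ≠ x) {x y : ℝ} (hx : x ∈ I) (hy : y ∈ I) : ∃ a ∈ A, y < a x := by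
  by_contra hc
  push Not at hc
  set B : Set ℝ := {z | ∃ a ∈ A, a x = z} with hB
  have hne : B.Nonempty := ⟨x, 1, A.one_mem, rfl⟩
  have hbd : BddAbove B := ⟨y, by rintro z ⟨a, ha, rfl⟩; exact hc a ha⟩
  have h1 : x ≤ sSup B := le_csSup hbd ⟨1, A.one_mem, rfl⟩
  have h2 : sSup B ≤ y := csSup_le hne (by rintro z ⟨a, ha, rfl⟩; exact hc a ha)
  have hs : sSup B ∈ I := hI.out hx hy ⟨h1, h2⟩
  have h3 : ∀ g ∈ A, g (sSup B) ≤ sSup B := by
    intro g hg
    have h4 : sSup B ≤ g⁻¹ (sSup B) := by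
      refine csSup_le hne ?_
      rintro z ⟨a, ha, rfl⟩
      have h5 : (g * a) x ≤ sSup B := le_csSup hbd ⟨g * a, A.mul_mem hg ha, rfl⟩
      have h6 := (g⁻¹).monotone h5
      have h7 : g⁻¹ ((g * a) x) = a x := by
        rw [← app_mul, inv_mul_cancel_left]
      rwa [h7] at h6
    have h8 := g.monotone h4
    have h9 : g (g⁻¹ (sSup B)) = sSup B := by simp
    rwa [h9] at h8
  obtain ⟨a, ha, hne'⟩ := hno _ hs
  apply hne'
  refine le_antisymm (h3 a ha) ?_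
  have h4 := a.monotone (h3 a⁻¹ (A.inv_mem ha))
  have h9 : a (a⁻¹ (sSup B)) = sSup B := by simp
  rwa [h9] at h4

/-- A compact interval that meets every invariant set. -/
theorem meet_grp {A : Subgroup (ℝ ≃o ℝ)} {SA : Set (ℝ ≃o ℝ)} (hcl : Subgroup.closure SA = A) {I : Set ℝ}
    (hI : I.OrdConnected) (hno : ∀ x ∈ I, ∃ a ∈ A, a x ≠ x) {x0 M : ℝ} (hx0 : x0 ∈ I)
    (hM : ∀ s ∈ SA, s x0 ≤ M ∧ s⁻¹ x0 ≤ M) {S : Set ℝ} (hS : S.Nonempty) (hSI : S ⊆ I)
    (hSA : ∀ g ∈ A, ∀ x ∈ S, g x ∈ S) : (S ∩ Icc x0 M).Nonempty := by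
  by_contra hemp
  rw [not_nonempty_iff_eq_empty] at hemp
  have hn : ∀ z ∈ S, z ≤ M → z < x0 := by
    intro z hz hzM
    by_contra h
    have h1 : z ∈ S ∩ Icc x0 M := ⟨hz, not_lt.mp h, hzM⟩
    rw [hemp] at h1
    exact h1
  have hsub : ∀ s ∈ SA, s ∈ A := by
    intro s hs
    rw [← hcl]
    exact Subgroup.subset_closure hs
  obtain ⟨y, hy⟩ := hS
  obtain ⟨a, ha, hlow⟩ := cofinal_grp hI hno hx0 (hSI hy)
  have hz : a⁻¹ y ∈ S := hSA _ (A.inv_mem ha) y hy
  have hzx : a⁻¹ y < x0 := by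
    have h1 := (a⁻¹).strictMono hlow
    have h2 : a⁻¹ (a x0) = x0 := by simp
    rwa [h2] at h1
  have key : ∀ g ∈ Subgroup.closure SA, g ∈ A ∧ (∀ w ∈ S, w < x0 → g w < x0) ∧ (∀ w ∈ S, w < x0 → g⁻¹ w < x0) := by
    intro g hg
    induction hg using Subgroup.closure_induction with
    | mem s hs =>
      refine ⟨hsub s hs, fun w hw hwx => ?_, fun w hw hwx => ?_⟩
      · exact hn _ (hSA s (hsub s hs) w hw) ((s.strictMono hwx).le.trans (hM s hs).1)
      · exact hn _ (hSA s⁻¹ (A.inv_mem (hsub s hs)) w hw) (((s⁻¹).strictMono hwx).le.trans (hM s hs).2)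
    | one => exact ⟨A.one_mem, fun w _ h => h, fun w _ h => by simpa using h⟩
    | mul g k hg hk ihg ihk =>
      refine ⟨A.mul_mem ihg.1 ihk.1, fun w hw hwx => ?_, fun w hw hwx => ?_⟩
      · rw [app_mul]
        exact ihg.2.1 _ (hSA k ihk.1 w hw) (ihk.2.1 w hw hwx)
      · rw [mul_inv_rev, app_mul]
        exact ihk.2.2 _ (hSA g⁻¹ (A.inv_mem ihg.1) w hw) (ihg.2.2 w hw hwx)
    | inv g hg ih =>
      refine ⟨A.inv_mem ih.1, ih.2.2, ?_⟩
      rw [inv_inv]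
      exact ih.2.1
  obtain ⟨b, hb, hup⟩ := cofinal_grp hI hno (hSI hz) hx0
  rw [← hcl] at hb
  exact absurd ((key b hb).2.1 _ hz hzx) (not_lt.mpr hup.le)

theorem exists_bound {SA : Set (ℝ ≃o ℝ)} (hfin : SA.Finite) {I : Set ℝ}
    (hS : ∀ s ∈ SA, ∀ x ∈ I, s x ∈ I ∧ s⁻¹ x ∈ I) {x0 : ℝ} (hx0 : x0 ∈ I) :
    ∃ M ∈ I, x0 ≤ M ∧ ∀ s ∈ SA, s x0 ≤ M ∧ s⁻¹ x0 ≤ M := by
  induction SA, hfin using Set.Finite.induction_on with
  | empty => exact ⟨x0, hx0, le_rfl, fun s hs => absurd hs (notMem_empty s)⟩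
  | @insert a SA ha hs ih =>
    obtain ⟨M, hMI, hxM, hM⟩ := ih (fun s hs => hS s (mem_insert_of_mem a hs))
    obtain ⟨h1, h2⟩ := hS a (mem_insert a SA) x0 hx0
    have hmax : ∀ p q : ℝ, p ∈ I → q ∈ I → max p q ∈ I := by
      intro p q hp hq
      rcases max_choice p q with h | h <;> rw [h] <;> assumption
    refine ⟨max M (max (a x0) (a⁻¹ x0)), hmax _ _ hMI (hmax _ _ h1 h2), hxM.trans (le_max_left _ _), ?_⟩
    intro s hs
    rcases mem_insert_iff.mp hs with rfl | hs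
    · exact ⟨(le_max_left _ _).trans (le_max_right _ _), (le_max_right _ _).trans (le_max_right _ _)⟩
    · exact ⟨(hM s hs).1.trans (le_max_left _ _), (hM s hs).2.trans (le_max_left _ _)⟩

/-- Minimal members of the family inside a given one. -/
theorem exists_minimal_in {A : Subgroup (ℝ ≃o ℝ)} {SA : Set (ℝ ≃o ℝ)} (hfin : SA.Finite)
    (hcl : Subgroup.closure SA = A) {I : Set ℝ} (hI : I.OrdConnected) (hA : ∀ g ∈ A, ∀ x ∈ I, g x ∈ I)
    (hno : ∀ x ∈ I, ∃ a ∈ A, a x ≠ x) {S0 : Set ℝ} (hS0 : S0 ∈ Fam A I) :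
    ∃ m, m ⊆ S0 ∧ Minimal (· ∈ Fam A I) m := by
  obtain ⟨x0, hx0⟩ : I.Nonempty := hS0.1.mono hS0.2.1
  have hsub : ∀ s ∈ SA, s ∈ A := by
    intro s hs
    rw [← hcl]
    exact Subgroup.subset_closure hs
  obtain ⟨M, hMI, hxM, hM⟩ := exists_bound hfin
    (fun s hs x hx => ⟨hA s (hsub s hs) x hx, hA s⁻¹ (A.inv_mem (hsub s hs)) x hx⟩) hx0
  have hK : Icc x0 M ⊆ I := hI.out hx0 hMI
  have hmeet : ∀ S ∈ Fam A I, (S ∩ Icc x0 M).Nonempty := fun S hS =>
    meet_grp hcl hI hno hx0 hM hS.1 hS.2.1 hS.2.2.2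
  apply zorn_superset_nonempty (Fam A I) _ S0 hS0
  intro c hc hchain hcn
  have hclosed : ∀ S ∈ c, IsClosed (S ∩ Icc x0 M) := by
    intro S hS
    rw [← closure_subset_iff_isClosed]
    intro x hx
    have hxK : x ∈ Icc x0 M := by
      have := closure_mono inter_subset_right hx
      rwa [isClosed_Icc.closure_eq] at this
    exact ⟨(hc hS).2.2.1 x (hK hxK) (closure_mono inter_subset_left hx), hxK⟩
  refine ⟨⋂₀ c, ⟨?_, ?_, ?_, ?_⟩, fun s hs => sInter_subset_of_mem hs⟩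
  · have hne : ((fun S => S ∩ Icc x0 M) '' c).Nonempty := hcn.image _
    have : Nonempty ((fun S => S ∩ Icc x0 M) '' c) := hne.to_subtype
    have h1 : (⋂₀ ((fun S => S ∩ Icc x0 M) '' c)).Nonempty := by
      apply IsCompact.nonempty_sInter_of_directed_nonempty_isCompact_isClosed
      · rintro _ ⟨S, hS, rfl⟩ _ ⟨S', hS', rfl⟩
        rcases eq_or_ne S S' with rfl | hne'
        · exact ⟨_, ⟨S, hS, rfl⟩, subset_rfl, subset_rfl⟩
        · rcases hchain hS hS' hne' with h | h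
          · exact ⟨_, ⟨S, hS, rfl⟩, subset_rfl, inter_subset_inter_left _ h⟩
          · exact ⟨_, ⟨S', hS', rfl⟩, inter_subset_inter_left _ h, subset_rfl⟩
      · rintro _ ⟨S, hS, rfl⟩
        exact hmeet S (hc hS)
      · rintro _ ⟨S, hS, rfl⟩
        exact isCompact_Icc.of_isClosed_subset (hclosed S hS) inter_subset_right
      · rintro _ ⟨S, hS, rfl⟩
        exact hclosed S hS
    obtain ⟨z, hz⟩ := h1
    exact ⟨z, fun S hS => (hz _ ⟨S, hS, rfl⟩).1⟩
  · obtain ⟨S, hS⟩ := hcn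
    exact (sInter_subset_of_mem hS).trans (hc hS).2.1
  · intro x hx hxc S hS
    exact (hc hS).2.2.1 x hx (closure_mono (sInter_subset_of_mem hS) hxc)
  · intro g hg x hx S hS
    exact (hc hS).2.2.2 g hg x (hx S hS)

/-- If a closed invariant set is disjoint from a minimal one, it separates the points of the minimal one. -/
theorem separates {A : Subgroup (ℝ ≃o ℝ)} {I : Set ℝ} (hI : I.OrdConnected)
    (hno : ∀ x ∈ I, ∃ a ∈ A, a x ≠ x) {m L : Set ℝ} (hm : Minimal (· ∈ Fam A I) m) (hL : L ∈ Fam A I)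
    (hdisj : ∀ z ∈ m, z ∉ L) {w w' : ℝ} (hw : w ∈ m) (hw' : w' ∈ m) (hlt : w < w') :
    ∃ v ∈ L, w < v ∧ v ≤ w' := by
  obtain ⟨⟨hmne, hmI, hmcl, hminv⟩, hmin⟩ := hm
  have hmin' : ∀ S ∈ Fam A I, S ⊆ m → m ⊆ S := fun S hS h => hmin hS h
  set W : Set ℝ := {w | w ∈ m ∧ ∃ v ∈ L, w < v ∧ ∀ z ∈ m, z < v → z ≤ w} with hW
  have hWF : W ∈ Fam A I := by
    refine ⟨?_, fun w hw => hmI hw.1, ?_, ?_⟩
    · obtain ⟨l, hl⟩ := hmne
      obtain ⟨μ, hμ⟩ := hL.1
      obtain ⟨a, ha, hn⟩ := cofinal_grp hI hno (hL.2.1 hμ) (hmI hl)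
      have hμ' : a μ ∈ L := hL.2.2.2 _ ha μ hμ
      set C : Set ℝ := {z | z ∈ L ∧ l < z} with hC
      have hCne : C.Nonempty := ⟨a μ, hμ', hn⟩
      have hCbd : BddBelow C := ⟨l, fun z hz => hz.2.le⟩
      have hv1 : l ≤ sInf C := le_csInf hCne (fun z hz => hz.2.le)
      have hv2 : sInf C ≤ a μ := csInf_le hCbd ⟨hμ', hn⟩
      have hvI : sInf C ∈ I := hI.out (hmI hl) (hL.2.1 hμ') ⟨hv1, hv2⟩
      have hvL : sInf C ∈ L :=
        hL.2.2.1 _ hvI (closure_mono (fun z hz => hz.1) (csInf_mem_closure hCne hCbd))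
      have hlv : l < sInf C := lt_of_le_of_ne hv1 (fun e => hdisj l hl (e ▸ hvL))
      set B : Set ℝ := {z | z ∈ m ∧ z < sInf C} with hB
      have hBne : B.Nonempty := ⟨l, hl, hlv⟩
      have hBbd : BddAbove B := ⟨sInf C, fun z hz => hz.2.le⟩
      have hw1 : l ≤ sSup B := le_csSup hBbd ⟨hl, hlv⟩
      have hw2 : sSup B ≤ sInf C := csSup_le hBne (fun z hz => hz.2.le)
      have hwI : sSup B ∈ I := hI.out (hmI hl) hvI ⟨hw1, hw2⟩
      have hwm : sSup B ∈ m := hmcl _ hwI (closure_mono (fun z hz => hz.1) (csSup_mem_closure hBne hBbd))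
      refine ⟨sSup B, hwm, sInf C, hvL, lt_of_le_of_ne hw2 (fun e => hdisj _ hwm (e ▸ hvL)), ?_⟩
      intro z hz hzv
      exact le_csSup hBbd ⟨hz, hzv⟩
    · intro z hz hzc
      have hzm : z ∈ m := hmcl z hz (closure_mono (fun w hw => hw.1) hzc)
      have hzL : z ∉ closure L := fun h => hdisj z hzm (hL.2.2.1 z hz h)
      obtain ⟨ε, hε, hball⟩ := Metric.mem_nhds_iff.mp (isClosed_closure.isOpen_compl.mem_nhds hzL)
      have hO : ∀ y, z - ε < y → y < z + ε → y ∉ L := by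
        intro y hy1 hy2 hy
        have : y ∈ Metric.ball z ε := by
          rw [Metric.mem_ball, Real.dist_eq, abs_lt]
          constructor <;> linarith
        exact hball this (subset_closure hy)
      obtain ⟨w, ⟨hw1, hw2⟩, hwW⟩ := mem_closure_iff.mp hzc (Ioo (z - ε) (z + ε)) isOpen_Ioo
        ⟨by linarith, by linarith⟩
      rcases lt_trichotomy w z with hlt | heq | hgt
      · exfalso
        obtain ⟨hwm, v, hv, hwv, hgap⟩ := hwW
        rcases lt_or_ge z v with h3 | h3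
        · exact absurd (hgap z hzm h3) (not_le.mpr hlt)
        · exact hO v (hw1.trans hwv) (by linarith) hv
      · rw [← heq]
        exact hwW
      · exfalso
        obtain ⟨w', ⟨hw1', hw2'⟩, hwm', v', hv', hwv', hgap'⟩ :=
          mem_closure_iff.mp hzc (Ioo (z - ε) w) isOpen_Ioo ⟨by linarith, hgt⟩
        rcases lt_or_ge w v' with h3 | h3
        · exact absurd (hgap' w hwW.1 h3) (not_le.mpr hw2')
        · exact hO v' (hw1'.trans hwv') (by linarith) hv'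
    · rintro a ha w ⟨hw, v, hv, hwv, hgap⟩
      refine ⟨hminv a ha w hw, a v, hL.2.2.2 a ha v hv, a.strictMono hwv, ?_⟩
      intro z hz hzv
      have h3 : a⁻¹ z < v := by
        rw [← a.lt_iff_lt]
        simpa using hzv
      have h4 := hgap (a⁻¹ z) (hminv _ (A.inv_mem ha) z hz) h3
      have h5 := a.monotone h4
      simpa using h5
  obtain ⟨-, v, hv, hwv, hgap⟩ := hmin' W hWF (fun w hw => hw.1) hw
  refine ⟨v, hv, hwv, ?_⟩
  by_contra hcon
  exact absurd (hgap w' hw' (not_le.mp hcon)) (not_le.mpr hlt)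

/-- Then an element of the group with a fixed point in the interval fixes the minimal set pointwise. -/
theorem fixes_minimal {A : Subgroup (ℝ ≃o ℝ)} {I : Set ℝ} (hI : I.OrdConnected)
    {m L : Set ℝ} (hm : m ∈ Fam A I) (hL : L ∈ Fam A I) (hdisj : ∀ z ∈ m, z ∉ L)
    (hsep : ∀ w ∈ m, ∀ w' ∈ m, w < w' → ∃ v ∈ L, w < v ∧ v ≤ w') {s : ℝ ≃o ℝ} (hs : s ∈ A)
    (hfix : ∃ x ∈ I, s x = x) {w : ℝ} (hw : w ∈ m) : s w = w := by
  obtain ⟨hmne, hmI, hmcl, hminv⟩ := hm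
  obtain ⟨x, hx, hsx⟩ := hfix
  -- increasing below the fixed point
  have h1 : ∀ t ∈ A, t x = x → ∀ w ∈ m, w ≤ x → ¬ w < t w := by
    intro t ht htx w hw hwx hlt
    set B : Set ℝ := {z | z ∈ m ∧ z < t z ∧ z ≤ x} with hB
    have hBne : B.Nonempty := ⟨w, hw, hlt, hwx⟩
    have hBbd : BddAbove B := ⟨x, fun z hz => hz.2.2⟩
    have hp1 : w ≤ sSup B := le_csSup hBbd ⟨hw, hlt, hwx⟩
    have hp2 : sSup B ≤ x := csSup_le hBne (fun z hz => hz.2.2)
    have hpI : sSup B ∈ I := hI.out (hmI hw) hx ⟨hp1, hp2⟩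
    have hpm : sSup B ∈ m := hmcl _ hpI (closure_mono (fun z hz => hz.1) (csSup_mem_closure hBne hBbd))
    apply hdisj _ hpm
    apply hL.2.2.1 _ hpI
    rw [Metric.mem_closure_iff]
    intro ε hε
    obtain ⟨z, hz, hzp⟩ := exists_lt_of_lt_csSup hBne (show sSup B - ε < sSup B by linarith)
    have htz : t z ∈ B := by
      refine ⟨hminv t ht z hz.1, t.strictMono hz.2.1, ?_⟩
      have := t.monotone hz.2.2
      rwa [htx] at this
    have htz' : t z ≤ sSup B := le_csSup hBbd htz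
    obtain ⟨v, hv, hv1, hv2⟩ := hsep z hz.1 (t z) htz.1 hz.2.1
    refine ⟨v, hv, ?_⟩
    rw [Real.dist_eq, abs_lt]
    constructor <;> linarith
  have h2 : ∀ t ∈ A, t x = x → ∀ w ∈ m, x ≤ w → ¬ t w < w := by
    intro t ht htx w hw hwx hlt
    set B : Set ℝ := {z | z ∈ m ∧ t z < z ∧ x ≤ z} with hB
    have hBne : B.Nonempty := ⟨w, hw, hlt, hwx⟩
    have hBbd : BddBelow B := ⟨x, fun z hz => hz.2.2⟩
    have hp1 : sInf B ≤ w := csInf_le hBbd ⟨hw, hlt, hwx⟩
    have hp2 : x ≤ sInf B := le_csInf hBne (fun z hz => hz.2.2)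
    have hpI : sInf B ∈ I := hI.out hx (hmI hw) ⟨hp2, hp1⟩
    have hpm : sInf B ∈ m := hmcl _ hpI (closure_mono (fun z hz => hz.1) (csInf_mem_closure hBne hBbd))
    apply hdisj _ hpm
    apply hL.2.2.1 _ hpI
    rw [Metric.mem_closure_iff]
    intro ε hε
    obtain ⟨z, hz, hzp⟩ := exists_lt_of_csInf_lt hBne (show sInf B < sInf B + ε by linarith)
    have htz : t z ∈ B := by
      refine ⟨hminv t ht z hz.1, t.strictMono hz.2.1, ?_⟩
      have := t.monotone hz.2.2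
      rwa [htx] at this
    have htz' : sInf B ≤ t z := csInf_le hBbd htz
    obtain ⟨v, hv, hv1, hv2⟩ := hsep (t z) htz.1 z hz.1 hz.2.1
    refine ⟨v, hv, ?_⟩
    rw [Real.dist_eq, abs_lt]
    constructor <;> linarith
  have hsx' : s⁻¹ x = x := by
    have h3 : s⁻¹ (s x) = x := by simp
    rwa [hsx] at h3
  have hinv : ∀ y, s⁻¹ (s y) = y := fun y => by simp
  rcases le_total w x with hwx | hwx
  · rcases lt_trichotomy (s w) w with h3 | h3 | h3
    · exfalso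
      apply h1 s⁻¹ (A.inv_mem hs) hsx' (s w) (hminv s hs w hw) (h3.le.trans hwx)
      rw [hinv]
      exact h3
    · exact h3
    · exact absurd h3 (h1 s hs hsx w hw hwx)
  · rcases lt_trichotomy (s w) w with h3 | h3 | h3
    · exact absurd h3 (h2 s hs hsx w hw hwx)
    · exact h3
    · exfalso
      apply h2 s⁻¹ (A.inv_mem hs) hsx' (s w) (hminv s hs w hw) (hwx.trans h3.le)
      rw [hinv]
      exact h3

/-- **The main lemma.** -/
theorem comm_fix {A : Subgroup (ℝ ≃o ℝ)} {SA : Set (ℝ ≃o ℝ)} (hfin : SA.Finite)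
    (hcl : Subgroup.closure SA = A) {I : Set ℝ} (hI : I.OrdConnected) (hA : ∀ g ∈ A, ∀ x ∈ I, g x ∈ I)
    (hfix : ∀ s ∈ SA, ∃ x ∈ I, s x = x) (hno : ∀ x ∈ I, ∃ a ∈ A, a x ≠ x) {S0 : Set ℝ} (hS0 : S0 ∈ Fam A I) :
    ∃ x ∈ S0, ∀ b : ℝ ≃o ℝ, (∀ a ∈ A, a * b = b * a) → (∃ y ∈ I, b y = y) → b x = x := by
  obtain ⟨m, hmS, hm⟩ := exists_minimal_in hfin hcl hI hA hno hS0
  have hmF : m ∈ Fam A I := hm.prop
  obtain ⟨x, hx⟩ := hmF.1
  refine ⟨x, hmS hx, ?_⟩
  intro b hb hby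
  have hap : ∀ a ∈ A, ∀ z, a (b z) = b (a z) := by
    intro a ha z
    rw [← app_mul, hb a ha]
    rfl
  have hbc : IsClosed {z : ℝ | b z = z} := isClosed_eq b.continuous continuous_id
  set L : Set ℝ := {z | z ∈ I ∧ b z = z} with hLdef
  have hL : L ∈ Fam A I := by
    refine ⟨hby, fun z hz => hz.1, ?_, ?_⟩
    · intro z hz hzc
      refine ⟨hz, ?_⟩
      have h3 : z ∈ closure {w : ℝ | b w = w} := closure_mono (fun w hw => hw.2) hzc
      rw [hbc.closure_eq] at h3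
      exact h3
    · intro a ha z hz
      exact ⟨hA a ha z hz.1, by rw [← hap a ha, hz.2]⟩
  by_cases hdisj : ∀ z ∈ m, z ∉ L
  · exfalso
    have hsep : ∀ w ∈ m, ∀ w' ∈ m, w < w' → ∃ v ∈ L, w < v ∧ v ≤ w' := fun w hw w' hw' h =>
      separates hI hno hm hL hdisj hw hw' h
    have hall : ∀ g ∈ Subgroup.closure SA, g x = x := by
      intro g hg
      have hsub : Subgroup.closure SA ≤ MulAction.stabilizer (ℝ ≃o ℝ) x := by
        rw [Subgroup.closure_le]
        intro s hs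
        have hsA : s ∈ A := by
          rw [← hcl]
          exact Subgroup.subset_closure hs
        exact fixes_minimal hI hmF hL hdisj hsep hsA (hfix s hs) hx
      exact hsub hg
    obtain ⟨a, ha, hne⟩ := hno x (hmF.2.1 hx)
    rw [← hcl] at ha
    exact hne (hall a ha)
  · push Not at hdisj
    obtain ⟨z, hz, hzL⟩ := hdisj
    have hS : {w | w ∈ m ∧ b w = w} ∈ Fam A I := by
      refine ⟨⟨z, hz, hzL.2⟩, fun w hw => hmF.2.1 hw.1, ?_, ?_⟩
      · intro w hw hwc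
        refine ⟨hmF.2.2.1 w hw (closure_mono (fun u hu => hu.1) hwc), ?_⟩
        have h3 : w ∈ closure {u : ℝ | b u = u} := closure_mono (fun u hu => hu.2) hwc
        rw [hbc.closure_eq] at h3
        exact h3
      · intro a ha w hw
        exact ⟨hmF.2.2.2 a ha w hw.1, by rw [← hap a ha, hw.2]⟩
    exact (hm.le_of_le hS (fun w hw => hw.1) hx).2

end Pool.Agent.MCG51b
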