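import Pool.Agent.MCG51b.Core

/-!
The smallest closed invariant set, and the action of the centraliser on it (Hölder).
-/

set_option autoImplicit false

open Set Filter Topology

namespace Pool.Agent.MCG51b

open Pool.Agent.MCG51

theorem inv_app (g : ℝ ≃o ℝ) (x : ℝ) : g⁻¹ (g x) = x := by simp

theorem app_inv (g : ℝ ≃o ℝ) (x : ℝ) : g (g⁻¹ x) = x := by simp

/-- **Hölder's theorem** for a group of increasing homeomorphisms whose elements with a fixed point act trivially on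
`K`. -/
theorem holder {D : Subgroup (ℝ ≃o ℝ)} {I K : Set ℝ} (hI : I.OrdConnected) (hD : ∀ g ∈ D, ∀ x ∈ I, g x ∈ I)
    (hKI : K ⊆ I) (hKD : ∀ g ∈ D, ∀ x ∈ K, g x ∈ K) (hP : ∀ g ∈ D, (∃ y ∈ I, g y = y) → ∀ x ∈ K, g x = x)
    {c d : ℝ ≃o ℝ} (hc : c ∈ D) (hd : d ∈ D) {k : ℝ} (hk : k ∈ K) : c (d k) = d (c k) := by
  -- the trichotomy
  have tri : ∀ g ∈ D, (∀ x ∈ K, g x = x) ∨ (∀ x ∈ I, x < g x) ∨ (∀ x ∈ I, g x < x) := by
    intro g hg
    by_cases hfix : ∃ y ∈ I, g y = y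
    · exact Or.inl (hP g hg hfix)
    · right
      by_contra hcon
      push Not at hcon
      obtain ⟨⟨x, hx, hgx⟩, ⟨y, hy, hgy⟩⟩ := hcon
      obtain ⟨z, hz, hz'⟩ := hI.isPreconnected.intermediate_value₂ hx hy g.continuous.continuousOn
        continuous_id.continuousOn hgx hgy
      exact hfix ⟨z, hz, hz'⟩
  have cmp : ∀ g ∈ D, ∀ h ∈ D, g k < h k → ∀ x ∈ I, g x < h x := by
    intro g hg h hh hlt x hx
    have h1 : k < (g⁻¹ * h) k := by
      rw [app_mul, ← g.lt_iff_lt, app_inv]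
      exact hlt
    rcases tri (g⁻¹ * h) (D.mul_mem (D.inv_mem hg) hh) with h2 | h2 | h2
    · exact absurd (h2 k hk) h1.ne'
    · have h3 := h2 x hx
      rw [app_mul, ← g.lt_iff_lt, app_inv] at h3
      exact h3
    · exact absurd (h2 k (hKI hk)) (not_lt.mpr h1.le)
  have cmple : ∀ g ∈ D, ∀ h ∈ D, g k ≤ h k → ∀ x ∈ K, g x ≤ h x := by
    intro g hg h hh hle x hx
    rcases hle.eq_or_lt with heq | hlt
    · have h1 : (g⁻¹ * h) k = k := by
        rw [app_mul, ← heq, inv_app]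
      have h2 := hP (g⁻¹ * h) (D.mul_mem (D.inv_mem hg) hh) ⟨k, hKI hk, h1⟩ x hx
      have h3 : g ((g⁻¹ * h) x) = g x := by rw [h2]
      rw [app_mul, app_inv] at h3
      exact h3.ge
    · exact (cmp g hg h hh hlt x (hKI hx)).le
  have hup : ∀ e ∈ D, k < e k → ∀ x ∈ I, x < e x := fun e he hlt => cmp 1 D.one_mem e he hlt
  have hfloor : ∀ e ∈ D, k < e k → ∀ g ∈ D, ∃ p : ℤ, (e ^ p) k ≤ g k ∧ g k < (e ^ (p + 1)) k := by
    intro e he hlt g hg
    exact exists_floor hI (hD e he) (hD e⁻¹ (D.inv_mem he)) (hup e he hlt) (hKI hk) (hD g hg k (hKI hk))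
  -- the main argument, for `c` and `d` with `d c k < c d k`
  have main : ∀ c ∈ D, ∀ d ∈ D, ¬ d (c k) < c (d k) := by
    intro c hc d hd hlt
    set w : ℝ ≃o ℝ := (d * c)⁻¹ * (c * d) with hw
    have hwD : w ∈ D := D.mul_mem (D.inv_mem (D.mul_mem hd hc)) (D.mul_mem hc hd)
    have hwk : k < w k := by
      rw [hw, app_mul, ← (d * c).lt_iff_lt, app_inv]
      exact hlt
    have hcd : ∀ x, c (d x) = d (c (w x)) := by
      intro x
      have h1 : (d * c) (w x) = (c * d) x := by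
        rw [hw, app_mul (d * c)⁻¹ (c * d) x, app_inv]
      exact h1.symm
    by_cases hleast : ∃ e ∈ D, k < e k ∧ ∀ g ∈ D, k < g k → e k ≤ g k
    · obtain ⟨e, he, hek, hmin⟩ := hleast
      have hpow : ∀ g ∈ D, ∃ p : ℤ, ∀ x ∈ K, g x = (e ^ p) x := by
        intro g hg
        obtain ⟨p, hp1, hp2⟩ := hfloor e he hek g hg
        refine ⟨p, fun x hx => ?_⟩
        have hq : (e ^ p)⁻¹ * g ∈ D := D.mul_mem (D.inv_mem (D.zpow_mem he p)) hg
        have h1 : k ≤ ((e ^ p)⁻¹ * g) k := by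
          rw [app_mul, ← (e ^ p).le_iff_le, app_inv]
          exact hp1
        have h2 : ((e ^ p)⁻¹ * g) k < e k := by
          rw [app_mul, ← (e ^ p).lt_iff_lt, app_inv, ← app_mul, ← zpow_add_one]
          exact hp2
        have h3 : ((e ^ p)⁻¹ * g) k = k := by
          by_contra hne
          exact absurd (hmin _ hq (lt_of_le_of_ne h1 (Ne.symm hne))) (not_le.mpr h2)
        have h4 := hP _ hq ⟨k, hKI hk, h3⟩ x hx
        have h5 : (e ^ p) (((e ^ p)⁻¹ * g) x) = (e ^ p) x := by rw [h4]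
        rw [app_mul, app_inv] at h5
        exact h5
      obtain ⟨p, hp⟩ := hpow c hc
      obtain ⟨q, hq⟩ := hpow d hd
      have h1 : c (d k) = d (c k) := by
        rw [hp (d k) (hKD d hd k hk), hq k hk, hq (c k) (hKD c hc k hk), hp k hk, ← app_mul, ← app_mul, ← zpow_add,
          ← zpow_add, add_comm]
      exact hlt.ne h1.symm
    · push Not at hleast
      -- a positive element whose square is at most `w`
      obtain ⟨f, hf, hfk, hfw⟩ : ∃ f ∈ D, k < f k ∧ f (f k) ≤ w k := by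
        obtain ⟨d1, hd1, hd1k, hd1w⟩ := hleast w hwD hwk
        rcases le_or_gt (d1 (d1 k)) (w k) with h1 | h1
        · exact ⟨d1, hd1, hd1k, h1⟩
        · have hd2 : d1⁻¹ * w ∈ D := D.mul_mem (D.inv_mem hd1) hwD
          refine ⟨d1⁻¹ * w, hd2, ?_, ?_⟩
          · rw [app_mul, ← d1.lt_iff_lt, app_inv]
            exact hd1w
          · have h2 : (d1⁻¹ * w) k < d1 k := by
              rw [app_mul, ← d1.lt_iff_lt, app_inv]
              exact h1
            have h3 := cmp _ hd2 d1 hd1 h2 _ (hD _ hd2 k (hKI hk))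
            have h4 : d1 ((d1⁻¹ * w) k) = w k := by
              rw [app_mul, app_inv]
            rw [h4] at h3
            exact h3.le
      obtain ⟨m, hm1, hm2⟩ := hfloor f hf hfk c hc
      obtain ⟨n, hn1, hn2⟩ := hfloor f hf hfk d hd
      have hfp : ∀ p : ℤ, f ^ p ∈ D := fun p => D.zpow_mem hf p
      -- upper bound
      have h1 : c (d k) < (f ^ (m + 1 + (n + 1))) k := by
        have h2 := cmp c hc _ (hfp (m + 1)) hm2 (d k) (hD d hd k (hKI hk))
        have h3 := (f ^ (m + 1)).strictMono hn2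
        rw [← app_mul, ← app_mul, ← zpow_add, app_mul] at h3
        exact h2.trans h3
      -- lower bound
      have h2 : (f ^ (n + m + 2)) k ≤ c (d k) := by
        rw [hcd k]
        have h3 : (f * f) k ≤ w k := hfw
        have h4 : (f ^ (n + m + 2)) k = (f ^ n) ((f ^ m) ((f * f) k)) := by
          rw [← app_mul, ← app_mul, ← zpow_add, ← pow_two, ← zpow_natCast, ← zpow_add]
          rfl
        rw [h4]
        have hffK : (f * f) k ∈ K := hKD _ (D.mul_mem hf hf) k hk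
        have h5 : (f ^ m) ((f * f) k) ≤ c ((f * f) k) := cmple _ (hfp m) c hc hm1 _ hffK
        have h6 : c ((f * f) k) ≤ c (w k) := c.monotone h3
        have h7 : (f ^ n) ((f ^ m) ((f * f) k)) ≤ (f ^ n) (c (w k)) := (f ^ n).monotone (h5.trans h6)
        have h8 : (f ^ n) (c (w k)) ≤ d (c (w k)) := cmple _ (hfp n) d hd hn1 _ (hKD c hc _ (hKD w hwD k hk))
        exact h7.trans h8
      have h3 : m + 1 + (n + 1) = n + m + 2 := by ring
      rw [h3] at h1
      exact absurd h1 (not_lt.mpr h2)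
  exact le_antisymm (not_lt.mp (main c hc d hd)) (not_lt.mp (main d hd c hc))

/-- The smallest closed invariant set. -/
theorem exists_abs {A : Subgroup (ℝ ≃o ℝ)} {SA : Set (ℝ ≃o ℝ)} (hfin : SA.Finite)
    (hcl : Subgroup.closure SA = A) {I : Set ℝ} (hI : I.OrdConnected) (hIn : I.Nonempty)
    (hA : ∀ g ∈ A, ∀ x ∈ I, g x ∈ I)
    (hfix : ∀ s ∈ SA, ∃ x ∈ I, s x = x) (hno : ∀ x ∈ I, ∃ a ∈ A, a x ≠ x) :
    ∃ m ∈ Fam A I, ∀ L ∈ Fam A I, m ⊆ L := by
  have hIF : I ∈ Fam A I := ⟨hIn, subset_rfl, fun x hx _ => hx, hA⟩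
  obtain ⟨m, -, hm⟩ := exists_minimal_in hfin hcl hI hA hno hIF
  have hmF : m ∈ Fam A I := hm.prop
  refine ⟨m, hmF, ?_⟩
  intro L hL
  by_cases hdisj : ∀ z ∈ m, z ∉ L
  · exfalso
    obtain ⟨x, hx⟩ := hmF.1
    have hsep : ∀ w ∈ m, ∀ w' ∈ m, w < w' → ∃ v ∈ L, w < v ∧ v ≤ w' := fun w hw w' hw' h =>
      separates hI hno hm hL hdisj hw hw' h
    have hall : ∀ g ∈ Subgroup.closure SA, g x = x := by
      intro g hg
      have hsub : Subgroup.closure SA ≤ MulAction.stabilizer (ℝ ≃o ℝ) x := by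
        rw [Subgroup.closure_le]
        intro s hs
        have hsA : s ∈ A := by
          rw [← hcl]
          exact Subgroup.subset_closure hs
        exact fixes_minimal hI hmF hL hdisj hsep hsA (hfix s hs) hx
      exact hsub hg
    obtain ⟨a, ha, hne⟩ := hno x (hmF.2.1 hx)
    rw [← hcl] at ha
    exact hne (hall a ha)
  · push Not at hdisj
    obtain ⟨z, hz, hzL⟩ := hdisj
    have hS : m ∩ L ∈ Fam A I := by
      refine ⟨⟨z, hz, hzL⟩, fun w hw => hmF.2.1 hw.1, ?_, ?_⟩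
      · intro w hw hwc
        exact ⟨hmF.2.2.1 w hw (closure_mono inter_subset_left hwc),
          hL.2.2.1 w hw (closure_mono inter_subset_right hwc)⟩
      · intro a ha w hw
        exact ⟨hmF.2.2.2 a ha w hw.1, hL.2.2.2 a ha w hw.2⟩
    exact (hm.le_of_le hS inter_subset_left).trans inter_subset_right

/-- Commutators of elements of the centraliser have fixed points. -/
theorem comm_fixed {A : Subgroup (ℝ ≃o ℝ)} {SA : Set (ℝ ≃o ℝ)} (hfin : SA.Finite)
    (hcl : Subgroup.closure SA = A) {I : Set ℝ} (hI : I.OrdConnected) (hIn : I.Nonempty)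
    (hA : ∀ g ∈ A, ∀ x ∈ I, g x ∈ I)
    (hfix : ∀ s ∈ SA, ∃ x ∈ I, s x = x) (hno : ∀ x ∈ I, ∃ a ∈ A, a x ≠ x) {c d : ℝ ≃o ℝ}
    (hc : ∀ a ∈ A, a * c = c * a) (hd : ∀ a ∈ A, a * d = d * a) (hcI : ∀ x ∈ I, c x ∈ I ∧ c⁻¹ x ∈ I)
    (hdI : ∀ x ∈ I, d x ∈ I ∧ d⁻¹ x ∈ I) : ∃ y ∈ I, (c * d * c⁻¹ * d⁻¹) y = y := by
  obtain ⟨K, hK, hKmin⟩ := exists_abs hfin hcl hI hIn hA hfix hno
  let D : Subgroup (ℝ ≃o ℝ) :=
    { carrier := {g | (∀ a ∈ A, a * g = g * a) ∧ ∀ x ∈ I, g x ∈ I ∧ g⁻¹ x ∈ I}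
      one_mem' := ⟨fun a _ => by rw [mul_one, one_mul], fun x hx => ⟨hx, by simpa using hx⟩⟩
      mul_mem' := by
        rintro g h ⟨h1, h2⟩ ⟨h3, h4⟩
        refine ⟨fun a ha => ?_, fun x hx => ⟨?_, ?_⟩⟩
        · rw [← mul_assoc, h1 a ha, mul_assoc, h3 a ha, mul_assoc]
        · exact (h2 _ (h4 x hx).1).1
        · rw [mul_inv_rev]
          exact (h4 _ (h2 x hx).2).2
      inv_mem' := by
        rintro g ⟨h1, h2⟩
        refine ⟨fun a ha => ?_, fun x hx => ⟨(h2 x hx).2, ?_⟩⟩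
        · have h3 : g⁻¹ * (g * a) * g⁻¹ = g⁻¹ * (a * g) * g⁻¹ := by rw [h1 a ha]
          rw [inv_mul_cancel_left, mul_assoc, mul_assoc, mul_inv_cancel, mul_one] at h3
          exact h3
        · rw [inv_inv]
          exact (h2 x hx).1 }
  have hDI : ∀ g ∈ D, ∀ x ∈ I, g x ∈ I := fun g hg x hx => (hg.2 x hx).1
  have hap : ∀ g ∈ D, ∀ a ∈ A, ∀ z, a (g z) = g (a z) := by
    intro g hg a ha z
    rw [← app_mul, hg.1 a ha]
    rfl
  have himg : ∀ g ∈ D, {x | x ∈ I ∧ g⁻¹ x ∈ K} ∈ Fam A I := by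
    intro g hg
    refine ⟨?_, fun x hx => hx.1, ?_, ?_⟩
    · obtain ⟨x, hx⟩ := hK.1
      exact ⟨g x, hDI g hg x (hK.2.1 hx), by rw [inv_app]; exact hx⟩
    · intro x hx hxc
      refine ⟨hx, hK.2.2.1 _ (hg.2 x hx).2 ?_⟩
      have h1 : g⁻¹ x ∈ (⇑(g⁻¹ : ℝ ≃o ℝ)) '' closure {x | x ∈ I ∧ g⁻¹ x ∈ K} := ⟨x, hxc, rfl⟩
      have h2 := image_closure_subset_closure_image (orderIso_continuous g⁻¹) h1
      refine closure_mono ?_ h2
      rintro _ ⟨z, hz, rfl⟩
      exact hz.2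
    · intro a ha x hx
      refine ⟨hA a ha x hx.1, ?_⟩
      rw [← hap g⁻¹ (D.inv_mem hg) a ha]
      exact hK.2.2.2 a ha _ hx.2
  have hKD : ∀ g ∈ D, ∀ x ∈ K, g x ∈ K := by
    intro g hg x hx
    have h1 := (hKmin _ (himg g⁻¹ (D.inv_mem hg)) hx).2
    rw [inv_inv] at h1
    exact h1
  have hP : ∀ g ∈ D, (∃ y ∈ I, g y = y) → ∀ x ∈ K, g x = x := by
    intro g hg hy x hx
    have hgc : IsClosed {z : ℝ | g z = z} := isClosed_eq g.continuous continuous_id
    have hL : {z | z ∈ I ∧ g z = z} ∈ Fam A I := by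
      refine ⟨hy, fun z hz => hz.1, ?_, ?_⟩
      · intro z hz hzc
        refine ⟨hz, ?_⟩
        have h3 : z ∈ closure {w : ℝ | g w = w} := closure_mono (fun w hw => hw.2) hzc
        rw [hgc.closure_eq] at h3
        exact h3
      · intro a ha z hz
        exact ⟨hA a ha z hz.1, by rw [← hap g hg a ha, hz.2]⟩
    exact (hKmin _ hL hx).2
  obtain ⟨x, hx⟩ := hK.1
  have hcD : c ∈ D := ⟨hc, hcI⟩
  have hdD : d ∈ D := ⟨hd, hdI⟩
  have h1 := holder hI hDI hK.2.1 hKD hP hcD hdD hx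
  refine ⟨d (c x), hDI d hdD _ (hDI c hcD _ (hK.2.1 hx)), ?_⟩
  change c (d (c⁻¹ (d⁻¹ (d (c x))))) = d (c x)
  rw [inv_app, inv_app, h1]

end Pool.Agent.MCG51b
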