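import Pool.Agent.MCG51b.Core
import Pool.Agent.MCG51.Circ

/-!
Two commuting finite sets of homeomorphisms of the line or of the circle with fixed points.
-/

set_option autoImplicit false

open Set Filter Topology

namespace Pool.Agent.MCG51b

open Pool.Agent.MCG51

theorem comm_closure {G : Type*} [Group G] {S : Set G} {b : G} (h : ∀ s ∈ S, s * b = b * s) :
    ∀ a ∈ Subgroup.closure S, a * b = b * a := by
  intro a ha
  have h1 : Subgroup.closure S ≤ Subgroup.centralizer {b} := by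
    rw [Subgroup.closure_le]
    intro s hs
    rw [SetLike.mem_coe, Subgroup.mem_centralizer_iff]
    intro c hc
    rw [mem_singleton_iff] at hc
    rw [hc]
    exact (h s hs).symm
  have h2 := Subgroup.mem_centralizer_iff.mp (h1 ha) b (mem_singleton b)
  exact h2.symm

theorem inv_closure {S : Set (ℝ ≃o ℝ)} {W : Set ℝ} (h : ∀ s ∈ S, (∀ x ∈ W, s x ∈ W) ∧ ∀ x ∈ W, s⁻¹ x ∈ W) :
    ∀ a ∈ Subgroup.closure S, ∀ x ∈ W, a x ∈ W := by
  have key : ∀ a ∈ Subgroup.closure S, (∀ x ∈ W, a x ∈ W) ∧ ∀ x ∈ W, a⁻¹ x ∈ W := by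
    intro a ha
    induction ha using Subgroup.closure_induction with
    | mem s hs => exact h s hs
    | one => exact ⟨fun x hx => hx, fun x hx => by simpa using hx⟩
    | mul g k hg hk ihg ihk =>
      refine ⟨fun x hx => ?_, fun x hx => ?_⟩
      · rw [app_mul]
        exact ihg.1 _ (ihk.1 x hx)
      · rw [mul_inv_rev, app_mul]
        exact ihk.2 _ (ihg.2 x hx)
    | inv g hg ih =>
      refine ⟨ih.2, ?_⟩
      rw [inv_inv]
      exact ih.1
  exact fun a ha => (key a ha).1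

theorem fix_closure {S : Set (ℝ ≃o ℝ)} {x : ℝ} (h : ∀ s ∈ S, s x = x) : ∀ a ∈ Subgroup.closure S, a x = x := by
  intro a ha
  have hsub : Subgroup.closure S ≤ MulAction.stabilizer (ℝ ≃o ℝ) x := by
    rw [Subgroup.closure_le]
    intro s hs
    exact h s hs
  exact hsub ha

/-- The alternative for two sets of homeomorphisms that lift to the line. -/
theorem pair_alt {X : Type*} [TopologicalSpace X] {p : ℝ → X} (hp : Continuous p) (hps : Function.Surjective p)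
    {SA SB : Set (X ≃ₜ X)} (hfin : SA.Finite)
    (hA : ∀ s ∈ SA, ∃ h : ℝ ≃o ℝ, (∀ x, p (h x) = s (p x)) ∧ ∃ x, h x = x)
    (hB : ∀ s ∈ SB, ∃ h : ℝ ≃o ℝ, (∀ x, p (h x) = s (p x)) ∧ ∃ x, h x = x)
    (hc : ∀ a ∈ SA, ∀ b ∈ SB, ∀ h k : ℝ ≃o ℝ, (∀ x, p (h x) = a (p x)) → (∀ x, p (k x) = b (p x)) →
      h * k = k * h) :
    (∃ x : X, ∀ a ∈ SA, a x = x) ∨
      ∀ S : Set X, IsClosed S → S.Nonempty → (∀ a ∈ SA, a '' S = S) → ∃ x ∈ S, ∀ b ∈ SB, b x = x := by
  choose! φ hφ using hA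
  choose! ψ hψ using hB
  set A := Subgroup.closure (φ '' SA) with hAdef
  by_cases hno : ∀ x ∈ (univ : Set ℝ), ∃ a ∈ A, a x ≠ x
  · right
    intro S hS hSne hSA
    have hS0 : p ⁻¹' S ∈ Fam A univ := by
      refine ⟨?_, subset_univ _, ?_, ?_⟩
      · obtain ⟨y, hy⟩ := hSne
        obtain ⟨x, rfl⟩ := hps y
        exact ⟨x, hy⟩
      · intro x _ hx
        rw [(hS.preimage hp).closure_eq] at hx
        exact hx
      · apply inv_closure
        rintro _ ⟨s, hs, rfl⟩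
        refine ⟨fun x hx => ?_, fun x hx => ?_⟩
        · change p (φ s x) ∈ S
          rw [(hφ s hs).1]
          have h1 := hSA s hs
          rw [← h1]
          exact ⟨p x, hx, rfl⟩
        · have hx' : p x ∈ s '' S := by
            rw [hSA s hs]
            exact hx
          obtain ⟨y, hy, hyx⟩ := hx'
          change p ((φ s)⁻¹ x) ∈ S
          have h2 : s (p ((φ s)⁻¹ x)) = p x := by
            rw [← (hφ s hs).1]
            congr 1
            simp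
          have h3 : p ((φ s)⁻¹ x) = y := s.injective (h2.trans hyx.symm)
          rw [h3]
          exact hy
    obtain ⟨x, hxS, hx⟩ := comm_fix (hfin.image φ) hAdef.symm ordConnected_univ (fun _ _ _ _ => mem_univ _)
      (by
        rintro _ ⟨s, hs, rfl⟩
        obtain ⟨y, hy⟩ := (hφ s hs).2
        exact ⟨y, mem_univ y, hy⟩) hno hS0
    refine ⟨p x, hxS, fun b hb => ?_⟩
    rw [← (hψ b hb).1]
    congr 1
    obtain ⟨y, hy⟩ := (hψ b hb).2
    refine hx (ψ b) (comm_closure ?_) ⟨y, mem_univ y, hy⟩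
    rintro _ ⟨a, ha, rfl⟩
    exact hc a ha b hb _ _ (hφ a ha).1 (hψ b hb).1
  · left
    push Not at hno
    obtain ⟨x, -, hx⟩ := hno
    refine ⟨p x, fun a ha => ?_⟩
    rw [← (hφ a ha).1, hx _ (Subgroup.subset_closure ⟨a, ha, rfl⟩)]

/-! ### Homeomorphisms of the line and of the circle -/

theorem exists_oi {f : ℝ ≃ₜ ℝ} (hf : StrictMono f) : ∃ h : ℝ ≃o ℝ, ∀ x, h x = f x :=
  ⟨toOI ⟨f, mem_ker_sgn.mpr hf⟩, fun _ => rfl⟩

theorem oi_comm {f g : ℝ ≃ₜ ℝ} (hc : f * g = g * f) {h k : ℝ ≃o ℝ} (hh : ∀ x, h x = f x) (hk : ∀ x, k x = g x) :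
    h * k = k * h := by
  apply RelIso.ext
  intro x
  change h (k x) = k (h x)
  rw [hk, hh, hh, hk]
  exact DFunLike.congr_fun hc x

theorem line_alt {SA SB : Set (ℝ ≃ₜ ℝ)} (hfin : SA.Finite) (hc : ∀ a ∈ SA, ∀ b ∈ SB, a * b = b * a)
    (hA : ∀ s ∈ SA, StrictMono s ∧ ∃ x, s x = x) (hB : ∀ s ∈ SB, StrictMono s ∧ ∃ x, s x = x) :
    (∃ x : ℝ, ∀ a ∈ SA, a x = x) ∨
      ∀ S : Set ℝ, IsClosed S → S.Nonempty → (∀ a ∈ SA, a '' S = S) → ∃ x ∈ S, ∀ b ∈ SB, b x = x := by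
  refine pair_alt (p := id) continuous_id Function.surjective_id hfin ?_ ?_ ?_
  · intro s hs
    obtain ⟨h, hh⟩ := exists_oi (hA s hs).1
    obtain ⟨x, hx⟩ := (hA s hs).2
    exact ⟨h, hh, x, (hh x).trans hx⟩
  · intro s hs
    obtain ⟨h, hh⟩ := exists_oi (hB s hs).1
    obtain ⟨x, hx⟩ := (hB s hs).2
    exact ⟨h, hh, x, (hh x).trans hx⟩
  · intro a ha b hb h k hh hk
    exact oi_comm (hc a ha b hb) hh hk

/-- A lift with a fixed point. -/
theorem exists_fix_lift {g : S1 ≃ₜ S1} (hg : g ∈ csgn.ker) (hfix : ∃ x, g x = x) :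
    ∃ h : ℝ ≃o ℝ, (∀ x : ℝ, ((h x : ℝ) : S1) = g (x : S1)) ∧ ∃ x, h x = x := by
  obtain ⟨h, hh⟩ := exists_mono_lift hg
  obtain ⟨y, hy⟩ := hfix
  obtain ⟨x, rfl⟩ := QuotientAddGroup.mk_surjective y
  obtain ⟨n, hn⟩ := (coe_eq_iff (h x) x).mp ((hh x).trans hy)
  refine ⟨(OrderIso.addRight (-(n : ℝ))) * h, ?_, x, ?_⟩
  · intro z
    rw [← hh z]
    change ((h z + -(n : ℝ) : ℝ) : S1) = ((h z : ℝ) : S1)
    rw [coe_eq_iff]
    refine ⟨-n, ?_⟩
    push_cast
    ring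
  · change h x + -(n : ℝ) = x
    rw [hn]
    ring

theorem circ_alt {SA SB : Set (S1 ≃ₜ S1)} (hfin : SA.Finite) (hc : ∀ a ∈ SA, ∀ b ∈ SB, a * b = b * a)
    (hA : ∀ s ∈ SA, s ∈ csgn.ker ∧ ∃ x, s x = x) (hB : ∀ s ∈ SB, s ∈ csgn.ker ∧ ∃ x, s x = x) :
    (∃ x : S1, ∀ a ∈ SA, a x = x) ∨
      ∀ S : Set S1, IsClosed S → S.Nonempty → (∀ a ∈ SA, a '' S = S) → ∃ x ∈ S, ∀ b ∈ SB, b x = x := by
  refine pair_alt (p := ((↑) : ℝ → S1)) coe_covering.continuous QuotientAddGroup.mk_surjective hfin ?_ ?_ ?_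
  · intro s hs
    exact exists_fix_lift (hA s hs).1 (hA s hs).2
  · intro s hs
    exact exists_fix_lift (hB s hs).1 (hB s hs).2
  · intro a ha b hb h k hh hk
    have h1 : IsLift a h.toHomeomorph := fun x => hh x
    have h2 : IsLift b k.toHomeomorph := fun x => hk x
    apply RelIso.ext
    intro x
    exact h1.comm h2 h.strictMono k.strictMono (hc a ha b hb) x

end Pool.Agent.MCG51b
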